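import Mathlib

set_option autoImplicit false

namespace Pool.Agent.H851Z.KCM

open Finset

/-- edges of the square lattice: `(x, false)` joins `x` to its right neighbour, `(x, true)` joins
`x` to its upper neighbour -/
abbrev Ed := (ℤ × ℤ) × Bool

/-- second endpoint of an edge -/
def other (a : Ed) : ℤ × ℤ := if a.2 then (a.1.1, a.1.2 + 1) else (a.1.1 + 1, a.1.2)

/-- every plaquette carries an even number of edges of `J` -/
def Ev (J : Finset Ed) : Prop := ∀ i j : ℤ,
  ((((i, j), false) ∈ J ↔ ((i, j + 1), false) ∈ J) ↔ (((i, j), true) ∈ J ↔ ((i + 1, j), true) ∈ J))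

/-- number of edges of `J` crossed by the ray to the right -/
def cnt (J : Finset Ed) (x : ℤ × ℤ) : ℕ :=
  (J.filter fun a => a.2 = false ∧ a.1.2 = x.2 ∧ x.1 ≤ a.1.1).card

/-- the interior of the contour `J` -/
def ins (J : Finset Ed) (x : ℤ × ℤ) : Prop := cnt J x % 2 = 1

instance (J : Finset Ed) : DecidablePred (ins J) := fun x => by unfold ins; infer_instance

theorem prop1 {a b c d p q r s : Prop} (h1 : d ↔ ¬ (r ↔ s)) (h2 : (a ↔ b) ↔ (c ↔ d))
    (h3 : a ↔ ¬ (p ↔ r)) (h4 : b ↔ ¬ (q ↔ s)) : c ↔ ¬ (p ↔ q) := by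
  rw [h3, h4, h1] at h2
  by_cases p <;> by_cases q <;> by_cases r <;> by_cases s <;> simp_all

theorem prop2 {a b c d p q r s : Prop} (h1 : (p ↔ q) ↔ (r ↔ s))
    (h2 : (¬ a ∧ ¬ b ∧ ¬ c ∧ ¬ d) ∨ ((a ↔ p) ∧ (b ↔ q) ∧ (c ↔ r) ∧ (d ↔ s))) :
    (a ↔ b) ↔ (c ↔ d) := by
  rcases h2 with ⟨h3, h4, h5, h6⟩ | ⟨h3, h4, h5, h6⟩
  · simp [h3, h4, h5, h6]
  · rw [h3, h4, h5, h6]; exact h1

theorem prop3 {a b c d p q r s : Prop} (h1 : (p ↔ q) ↔ (r ↔ s))
    (h2 : (¬ a ∧ ¬ b ∧ ¬ c ∧ ¬ d) ∨ ((a ↔ p) ∧ (b ↔ q) ∧ (c ↔ r) ∧ (d ↔ s))) :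
    (p ∧ ¬ a ↔ q ∧ ¬ b) ↔ (r ∧ ¬ c ↔ s ∧ ¬ d) := by
  rcases h2 with ⟨h3, h4, h5, h6⟩ | ⟨h3, h4, h5, h6⟩
  · simpa [h3, h4, h5, h6] using h1
  · simp [h3, h4, h5, h6]

theorem prop4 (p q r s : Prop) : (¬ (p ↔ q) ↔ ¬ (r ↔ s)) ↔ (¬ (p ↔ r) ↔ ¬ (q ↔ s)) := by
  by_cases p <;> by_cases q <;> by_cases r <;> by_cases s <;> simp_all

theorem prop5 {a p q r s : Prop} (h1 : q ↔ s) (h2 : a ↔ ¬ (p ↔ q)) (h3 : a ↔ ¬ (r ↔ s)) :
    p ↔ r := by
  by_cases p <;> by_cases q <;> by_cases r <;> by_cases s <;> simp_all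

theorem cnt_step (J : Finset Ed) (i j : ℤ) :
    cnt J (i, j) = cnt J (i + 1, j) + if ((i, j), false) ∈ J then 1 else 0 := by
  unfold cnt
  split_ifs with h
  · rw [← card_insert_of_notMem (a := ((i, j), false)) (by simp)]
    congr 1
    ext ⟨⟨a, b⟩, c⟩
    simp only [mem_filter, mem_insert, Prod.mk.injEq]
    constructor
    · rintro ⟨h1, h2, h3, h4⟩
      by_cases h5 : a = i
      · exact Or.inl ⟨⟨h5, h3⟩, h2⟩
      · exact Or.inr ⟨h1, h2, h3, by omega⟩
    · rintro (⟨⟨rfl, rfl⟩, rfl⟩ | ⟨h1, h2, h3, h4⟩)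
      · exact ⟨h, rfl, rfl, le_rfl⟩
      · exact ⟨h1, h2, h3, by omega⟩
  · rw [add_zero]
    congr 1
    ext ⟨⟨a, b⟩, c⟩
    simp only [mem_filter]
    constructor
    · rintro ⟨h1, h2, h3, h4⟩
      refine ⟨h1, h2, h3, ?_⟩
      by_contra h5
      have h6 : a = i := by omega
      subst h6 h2 h3
      exact h h1
    · rintro ⟨h1, h2, h3, h4⟩
      exact ⟨h1, h2, h3, by omega⟩

theorem ins_h (J : Finset Ed) (i j : ℤ) :
    ((i, j), false) ∈ J ↔ ¬ (ins J (i, j) ↔ ins J (i + 1, j)) := by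
  unfold ins
  rw [cnt_step J i j]
  split_ifs with h
  · simp only [h, true_iff]; omega
  · simp only [h, false_iff, not_not]; omega

theorem exists_bound (J : Finset Ed) : ∃ N : ℤ, ∀ a ∈ J, a.1.1 < N ∧ a.1.2 < N := by
  obtain ⟨N, hN⟩ := (J.image fun a => max a.1.1 a.1.2).bddAbove
  refine ⟨N + 1, fun a ha => ?_⟩
  have h := hN (mem_coe.2 (mem_image_of_mem _ ha))
  simp only [max_le_iff] at h
  omega

theorem exists_h {J : Finset Ed} {x : ℤ × ℤ} (h : ins J x) :
    ∃ i, x.1 ≤ i ∧ ((i, x.2), false) ∈ J := by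
  unfold ins cnt at h
  have h1 : 0 < (J.filter fun a => a.2 = false ∧ a.1.2 = x.2 ∧ x.1 ≤ a.1.1).card := by omega
  obtain ⟨⟨⟨a, b⟩, c⟩, ha⟩ := card_pos.1 h1
  simp only [mem_filter] at ha
  obtain ⟨h2, rfl, rfl, h5⟩ := ha
  exact ⟨a, h5, h2⟩

theorem ins_v {J : Finset Ed} (hJ : Ev J) (i j : ℤ) :
    ((i, j), true) ∈ J ↔ ¬ (ins J (i, j) ↔ ins J (i, j + 1)) := by
  obtain ⟨N, hN⟩ := exists_bound J
  have far : ∀ i j : ℤ, N ≤ i → ¬ ins J (i, j) := by
    intro i j hi h
    obtain ⟨i', h1, h2⟩ := exists_h h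
    have := (hN _ h2).1
    simp only at h1 this
    omega
  have key : ∀ k : ℕ, ∀ i : ℤ, N - k ≤ i →
      (((i, j), true) ∈ J ↔ ¬ (ins J (i, j) ↔ ins J (i, j + 1))) := by
    intro k
    induction k with
    | zero =>
      intro i hi
      have h1 := far i j (by omega)
      have h2 := far i (j + 1) (by omega)
      have h3 : ((i, j), true) ∉ J := fun h => by
        have := (hN _ h).1
        simp only at this
        omega
      tauto
    | succ k ih =>
      intro i hi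
      have h1 := ih (i + 1) (by push_cast at hi; omega)
      have h2 := hJ i j
      have h3 := ins_h J i j
      have h4 := ins_h J i (j + 1)
      exact prop1 h1 h2 h3 h4
  exact key (N - i).toNat i (by omega)

theorem exists_v {J : Finset Ed} (hJ : Ev J) {x : ℤ × ℤ} (h : ins J x) :
    ∃ j, x.2 ≤ j ∧ ((x.1, j), true) ∈ J := by
  obtain ⟨N, hN⟩ := exists_bound J
  by_contra hcon
  push Not at hcon
  have key : ∀ k : ℕ, ins J (x.1, x.2 + k) := by
    intro k
    induction k with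
    | zero => simpa using h
    | succ k ih =>
      have h1 := ins_v hJ x.1 (x.2 + k)
      have h2 := hcon (x.2 + k) (by omega)
      have h3 : x.2 + ((k + 1 : ℕ) : ℤ) = x.2 + k + 1 := by push_cast; ring
      rw [h3]
      tauto
  obtain ⟨i, -, h2⟩ := exists_h (key (N - x.2).toNat)
  have := (hN _ h2).2
  simp only at this
  omega

theorem ins_bd {J : Finset Ed} (hJ : Ev J) (a : Ed) : a ∈ J ↔ ¬ (ins J a.1 ↔ ins J (other a)) := by
  obtain ⟨⟨i, j⟩, c⟩ := a
  cases c
  · exact ins_h J i j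
  · exact ins_v hJ i j

/-- closeness of two edges -/
def Rr (a b : Ed) : Prop :=
  a.1.1 ≤ b.1.1 + 1 ∧ b.1.1 ≤ a.1.1 + 1 ∧ a.1.2 ≤ b.1.2 + 1 ∧ b.1.2 ≤ a.1.2 + 1

theorem Rr.symm {a b : Ed} (h : Rr a b) : Rr b a := ⟨h.2.1, h.1, h.2.2.2, h.2.2.1⟩

/-- closeness inside `K` -/
def RK (K : Finset Ed) (a b : Ed) : Prop := a ∈ K ∧ b ∈ K ∧ Rr a b

/-- `K` is connected -/
def Conn (K : Finset Ed) : Prop := ∀ a ∈ K, ∀ b ∈ K, Relation.ReflTransGen (RK K) a b

theorem cnt_split {J K : Finset Ed} (h : K ⊆ J) (x : ℤ × ℤ) : cnt J x = cnt K x + cnt (J \ K) x := by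
  unfold cnt
  rw [← card_union_of_disjoint, ← filter_union, union_sdiff_of_subset h]
  exact disjoint_filter_filter disjoint_sdiff

theorem exists_comp (o : ℤ × ℤ) : ∀ (n : ℕ) (J : Finset Ed), J.card ≤ n → Ev J → ins J o →
    ∃ K ⊆ J, Ev K ∧ Conn K ∧ ins K o := by
  classical
  intro n
  induction n with
  | zero =>
    intro J hn _ ho
    obtain ⟨i, -, h⟩ := exists_h ho
    have := card_pos.2 ⟨_, h⟩
    omega
  | succ n ih =>
    intro J hn hJ ho
    obtain ⟨i, -, ha⟩ := exists_h ho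
    generalize ((i, o.2), false) = a at ha
    obtain ⟨K, hK⟩ : ∃ K, K = J.filter (Relation.ReflTransGen (RK J) a) := ⟨_, rfl⟩
    have hKJ : K ⊆ J := hK ▸ filter_subset _ _
    have haK : a ∈ K := by rw [hK, mem_filter]; exact ⟨ha, Relation.ReflTransGen.refl⟩
    have hcl : ∀ u v, u ∈ K → Rr u v → (v ∈ K ↔ v ∈ J) := by
      intro u v hu huv
      refine ⟨fun h => hKJ h, fun hv => ?_⟩
      rw [hK, mem_filter] at hu ⊢
      exact ⟨hv, hu.2.tail ⟨hu.1, hv, huv⟩⟩
    have hplaq : ∀ i j : ℤ, (((i, j), false) ∉ K ∧ ((i, j + 1), false) ∉ K ∧ ((i, j), true) ∉ K ∧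
        ((i + 1, j), true) ∉ K) ∨ ((((i, j), false) ∈ K ↔ ((i, j), false) ∈ J) ∧
          (((i, j + 1), false) ∈ K ↔ ((i, j + 1), false) ∈ J) ∧
          (((i, j), true) ∈ K ↔ ((i, j), true) ∈ J) ∧
          (((i + 1, j), true) ∈ K ↔ ((i + 1, j), true) ∈ J)) := by
      intro i j
      by_cases h1 : ((i, j), false) ∈ K
      · right
        refine ⟨hcl _ _ h1 ?_, hcl _ _ h1 ?_, hcl _ _ h1 ?_, hcl _ _ h1 ?_⟩ <;>
          simp only [Rr] <;> omega
      by_cases h2 : ((i, j + 1), false) ∈ K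
      · right
        refine ⟨hcl _ _ h2 ?_, hcl _ _ h2 ?_, hcl _ _ h2 ?_, hcl _ _ h2 ?_⟩ <;>
          simp only [Rr] <;> omega
      by_cases h3 : ((i, j), true) ∈ K
      · right
        refine ⟨hcl _ _ h3 ?_, hcl _ _ h3 ?_, hcl _ _ h3 ?_, hcl _ _ h3 ?_⟩ <;>
          simp only [Rr] <;> omega
      by_cases h4 : ((i + 1, j), true) ∈ K
      · right
        refine ⟨hcl _ _ h4 ?_, hcl _ _ h4 ?_, hcl _ _ h4 ?_, hcl _ _ h4 ?_⟩ <;>
          simp only [Rr] <;> omega
      exact Or.inl ⟨h1, h2, h3, h4⟩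
    by_cases hoK : ins K o
    · refine ⟨K, hKJ, fun i j => ?_, ?_, hoK⟩
      · exact prop2 (hJ i j) (hplaq i j)
      · have h1 : ∀ u, Relation.ReflTransGen (RK J) a u → Relation.ReflTransGen (RK K) a u := by
          intro u hu
          induction hu with
          | refl => exact Relation.ReflTransGen.refl
          | @tail b c h2 h3 ih2 =>
            have hb : b ∈ K := by rw [hK, mem_filter]; exact ⟨h3.1, h2⟩
            exact ih2.tail ⟨hb, (hcl _ _ hb h3.2.2).2 h3.2.1, h3.2.2⟩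
        have h2 : ∀ u v, Relation.ReflTransGen (RK K) u v → Relation.ReflTransGen (RK K) v u := by
          intro u v huv
          induction huv with
          | refl => exact Relation.ReflTransGen.refl
          | tail _ h3 ih2 => exact Relation.ReflTransGen.head ⟨h3.2.1, h3.1, h3.2.2.symm⟩ ih2
        intro u hu v hv
        rw [hK, mem_filter] at hu hv
        exact (h2 _ _ (h1 u hu.2)).trans (h1 v hv.2)
    · have h1 : ins (J \ K) o := by
        have := cnt_split hKJ o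
        unfold ins at *
        omega
      have h2 : (J \ K).card ≤ n := by
        rw [card_sdiff_of_subset hKJ]
        have := card_pos.2 ⟨a, haK⟩
        omega
      have h3 : Ev (J \ K) := by
        intro i j
        simp only [mem_sdiff]
        exact prop3 (hJ i j) (hplaq i j)
      obtain ⟨K', h4, h5⟩ := ih _ h2 h3 h1
      exact ⟨K', h4.trans sdiff_subset, h5⟩

/-- the edges close to `a` -/
noncomputable def nb (a : Ed) : Finset Ed :=
  (Icc (a.1.1 - 1) (a.1.1 + 1) ×ˢ Icc (a.1.2 - 1) (a.1.2 + 1)) ×ˢ univ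

theorem mem_nb {a b : Ed} : b ∈ nb a ↔ Rr a b := by
  simp only [nb, mem_product, mem_Icc, mem_univ, and_true, Rr]
  omega

theorem card_nb (a : Ed) : (nb a).card = 18 := by
  simp only [nb, card_product, Int.card_Icc, card_univ, Fintype.card_bool]
  have h1 : (a.1.1 + 1 + 1 - (a.1.1 - 1)).toNat = 3 := by omega
  have h2 : (a.1.2 + 1 + 1 - (a.1.2 - 1)).toNat = 3 := by omega
  rw [h1, h2]

/-- supports of the walks of length `m` from `a` -/
noncomputable def Wk : ℕ → Ed → Finset (Finset Ed)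
  | 0, a => {{a}}
  | m + 1, a => (nb a).biUnion fun b => (Wk m b).image (insert a)

theorem card_Wk (m : ℕ) : ∀ a, (Wk m a).card ≤ 18 ^ m := by
  induction m with
  | zero => intro a; simp [Wk]
  | succ m ih =>
    intro a
    refine card_biUnion_le.trans ?_
    refine (sum_le_card_nsmul _ _ (18 ^ m) fun b _ => card_image_le.trans (ih b)).trans ?_
    rw [card_nb, smul_eq_mul, pow_succ, mul_comm]

theorem Wk_step {m : ℕ} {a b : Ed} {S : Finset Ed} (h : S ∈ Wk m b) (hab : Rr a b) :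
    insert a S ∈ Wk (m + 1) a := by
  simp only [Wk, mem_biUnion, mem_image]
  exact ⟨b, mem_nb.2 hab, S, h, rfl⟩

theorem Wk_detour (m : ℕ) : ∀ (a : Ed) (S : Finset Ed) (u v : Ed), S ∈ Wk m a → u ∈ S → Rr u v →
    insert v S ∈ Wk (m + 2) a := by
  have base : ∀ (m : ℕ) (a : Ed) (S : Finset Ed) (v : Ed), S ∈ Wk m a → a ∈ S → Rr a v →
      insert v S ∈ Wk (m + 2) a := by
    intro m a S v h1 h2 h3
    have h4 := Wk_step (Wk_step h1 h3.symm) h3
    rwa [insert_eq_of_mem (mem_insert_of_mem h2)] at h4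
  induction m with
  | zero =>
    intro a S u v h1 h2 h3
    have h4 : u = a := by
      simp only [Wk, mem_singleton] at h1
      rw [h1, mem_singleton] at h2
      exact h2
    subst h4
    exact base 0 u S v h1 h2 h3
  | succ m ih =>
    intro a S u v h1 h2 h3
    by_cases h4 : u = a
    · subst h4
      exact base _ u S v h1 h2 h3
    · simp only [Wk, mem_biUnion, mem_image] at h1
      obtain ⟨b, hb, T, hT, rfl⟩ := h1
      have h5 : u ∈ T := by
        rcases mem_insert.1 h2 with h | h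
        · exact absurd h h4
        · exact h
      have h6 := Wk_step (ih b T u v hT h5 h3) (mem_nb.1 hb)
      rwa [insert_comm] at h6

theorem mem_Wk {K : Finset Ed} (hK : Conn K) {a : Ed} (ha : a ∈ K) : K ∈ Wk (2 * (K.card - 1)) a := by
  have key : ∀ n, n + 1 ≤ K.card → ∃ S ∈ Wk (2 * n) a, S ⊆ K ∧ a ∈ S ∧ S.card = n + 1 := by
    intro n
    induction n with
    | zero => intro _; exact ⟨{a}, by simp [Wk], by simpa using ha, by simp, by simp⟩
    | succ n ih =>
      intro hn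
      obtain ⟨S, h1, h2, h3, h4⟩ := ih (by omega)
      obtain ⟨b, hb, hbS⟩ : ∃ b ∈ K, b ∉ S := by
        by_contra hcon
        push Not at hcon
        have := card_le_card (show K ⊆ S from hcon)
        omega
      have h5 : ∀ c, Relation.ReflTransGen (RK K) a c → c ∉ S →
          ∃ u ∈ S, ∃ v ∈ K, v ∉ S ∧ Rr u v := by
        intro c hc
        induction hc with
        | refl => intro h; exact absurd h3 h
        | @tail c d _ h7 ih2 =>
          intro hd
          by_cases hcS : c ∈ S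
          · exact ⟨c, hcS, d, h7.2.1, hd, h7.2.2⟩
          · exact ih2 hcS
      obtain ⟨u, hu, v, hv, hvS, huv⟩ := h5 b (hK a ha b hb) hbS
      refine ⟨insert v S, Wk_detour _ a S u v h1 hu huv, insert_subset hv h2,
        mem_insert_of_mem h3, ?_⟩
      rw [card_insert_of_notMem hvS, h4]
  have hpos := card_pos.2 ⟨a, ha⟩
  obtain ⟨S, h1, h2, -, h4⟩ := key (K.card - 1) (by omega)
  have h5 : S = K := eq_of_subset_of_card_le h2 (by omega)
  rwa [h5] at h1

/-- the candidates for a contour of size `n` around `o` -/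
noncomputable def Fam (o : ℤ × ℤ) (n : ℕ) : Finset (Finset Ed) :=
  (range n).biUnion fun i => Wk (2 * (n - 1)) ((o.1 + i, o.2), false)

theorem card_Fam (o : ℤ × ℤ) (n : ℕ) : (Fam o n).card ≤ 648 ^ n := by
  refine card_biUnion_le.trans ?_
  refine (sum_le_card_nsmul _ _ (18 ^ (2 * (n - 1))) fun b _ => card_Wk _ _).trans ?_
  rw [card_range, smul_eq_mul]
  have h1 : n ≤ 2 ^ n := Nat.lt_two_pow_self.le
  have h2 : 18 ^ (2 * (n - 1)) ≤ 324 ^ n := by
    rw [pow_mul]
    exact Nat.pow_le_pow_right (by norm_num) (by omega)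
  calc n * 18 ^ (2 * (n - 1)) ≤ 2 ^ n * 324 ^ n := Nat.mul_le_mul h1 h2
    _ = 648 ^ n := by rw [← mul_pow]; norm_num

theorem mem_Fam {K : Finset Ed} (hE : Ev K) (hK : Conn K) {o : ℤ × ℤ} (ho : ins K o) :
    K ∈ Fam o K.card := by
  classical
  have h1 : ∃ i : ℕ, ((o.1 + i, o.2), false) ∈ K := by
    obtain ⟨i, h1, h2⟩ := exists_h ho
    refine ⟨(i - o.1).toNat, ?_⟩
    have : o.1 + ((i - o.1).toNat : ℤ) = i := by omega
    rwa [this]
  have h2 : ∀ k : ℕ, k ≤ Nat.find h1 → ins K (o.1 + k, o.2) := by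
    intro k
    induction k with
    | zero => intro _; simpa using ho
    | succ k ih =>
      intro hk
      have h3 := ih (by omega)
      have h4 := Nat.find_min h1 (show k < Nat.find h1 by omega)
      have h5 := ins_h K (o.1 + k) o.2
      have h6 : o.1 + ((k + 1 : ℕ) : ℤ) = o.1 + k + 1 := by push_cast; ring
      rw [h6]
      tauto
  have h3 : Nat.find h1 < K.card := by
    have h4 : (range (Nat.find h1 + 1)).image (fun k : ℕ => o.1 + (k : ℤ)) ⊆
        K.image fun a => a.1.1 := by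
      intro z hz
      rw [mem_image] at hz ⊢
      obtain ⟨k, hk, rfl⟩ := hz
      obtain ⟨j, -, hj⟩ := exists_v hE (h2 k (by rw [mem_range] at hk; omega))
      exact ⟨_, hj, rfl⟩
    have h5 := card_le_card h4
    rw [card_image_of_injective _ (fun a b h => by simpa using h), card_range] at h5
    have h6 := card_image_le (s := K) (f := fun a : Ed => a.1.1)
    omega
  simp only [Fam, mem_biUnion, mem_range]
  exact ⟨Nat.find h1, h3, mem_Wk hK (Nat.find_spec h1)⟩

/-- a finite set containing `o` has a connected piece of boundary surrounding `o` -/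
theorem exists_contour (A : Finset (ℤ × ℤ)) {o : ℤ × ℤ} (ho : o ∈ A) :
    ∃ K : Finset Ed, (∀ a ∈ K, ¬ (a.1 ∈ A ↔ other a ∈ A)) ∧ Ev K ∧ K ∈ Fam o K.card ∧
      1 ≤ K.card := by
  classical
  obtain ⟨J, hJ⟩ : ∃ J : Finset Ed, ∀ a, a ∈ J ↔ ¬ (a.1 ∈ A ↔ other a ∈ A) := by
    refine ⟨((A ∪ A.image (fun x => (x.1 - 1, x.2)) ∪ A.image (fun x => (x.1, x.2 - 1))) ×ˢ
      univ).filter fun a => ¬ (a.1 ∈ A ↔ other a ∈ A), fun a => ?_⟩
    rw [mem_filter]
    refine ⟨fun h => h.2, fun h => ⟨?_, h⟩⟩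
    simp only [mem_product, mem_union, mem_image, mem_univ, and_true]
    by_cases h1 : a.1 ∈ A
    · exact Or.inl (Or.inl h1)
    · have h2 : other a ∈ A := by tauto
      obtain ⟨⟨i, j⟩, c⟩ := a
      cases c
      · exact Or.inl (Or.inr ⟨_, h2, by simp [other]⟩)
      · exact Or.inr ⟨_, h2, by simp [other]⟩
  have hE : Ev J := by
    intro i j
    simp only [hJ, other, Bool.false_eq_true, if_false, if_true]
    exact prop4 _ _ _ _
  have hins : ins J o := by
    obtain ⟨N, hN⟩ := exists_bound J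
    obtain ⟨M, hM⟩ := (A.image fun a => a.1).bddAbove
    have key : ∀ k : ℕ, ∀ i : ℤ, max N (M + 1) - k ≤ i → (ins J (i, o.2) ↔ (i, o.2) ∈ A) := by
      intro k
      induction k with
      | zero =>
        intro i hi
        have h1 : ¬ ins J (i, o.2) := by
          intro h
          obtain ⟨i', h1, h2⟩ := exists_h h
          have := (hN _ h2).1
          simp only at h1 this
          omega
        have h2 : (i, o.2) ∉ A := by
          intro h
          have := hM (mem_coe.2 (mem_image_of_mem _ h))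
          simp only at this
          omega
        tauto
      | succ k ih =>
        intro i hi
        have h1 := ih (i + 1) (by push_cast at hi; omega)
        have h2 := ins_h J i o.2
        have h3 := hJ ((i, o.2), false)
        simp only [other, Bool.false_eq_true, if_false] at h3
        exact prop5 h1 h2 h3
    exact (key (max N (M + 1) - o.1).toNat o.1 (by omega)).2 ho
  obtain ⟨K, h1, h2, h3, h4⟩ := exists_comp o J.card J le_rfl hE hins
  refine ⟨K, fun a ha => (hJ a).1 (h1 ha), h2, mem_Fam h2 h3 h4, ?_⟩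
  obtain ⟨i, -, h⟩ := exists_h h4
  exact card_pos.2 ⟨_, h⟩

end Pool.Agent.H851Z.KCM
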