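import Mathlib

set_option autoImplicit false

namespace Pool.Agent.H851Z.KCM

open MeasureTheory Filter Topology
open scoped ENNReal

/-- Configurations on the square lattice: `true` is filled (healthy, 1), `false` is empty
(infected, 0). -/
abbrev Cfg := ℤ × ℤ → Bool

/-- The configuration `η` flipped at `x`. -/
def flipAt (η : Cfg) (x : ℤ × ℤ) : Cfg := Function.update η x (!η x)

/-- `c` is a family of rates of a kinetically constrained model: nonnegative, and `c x` depends
only on the sites `y` with `0 < dist y x ≤ r` for a fixed range `r`. -/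
def IsKCM (c : ℤ × ℤ → Cfg → ℝ) : Prop :=
  (∀ x η, 0 ≤ c x η) ∧ ∃ r : ℝ, ∀ x, DependsOn (c x) {y | 0 < dist y x ∧ dist y x ≤ r}

/-- `f` depends on finitely many sites. -/
def IsLocal {α : Type} (f : Cfg → α) : Prop := ∃ S : Finset (ℤ × ℤ), DependsOn f (S : Set (ℤ × ℤ))

/-- The generator applied to a (local) function. -/
noncomputable def gen (q : ℝ) (c : ℤ × ℤ → Cfg → ℝ) (f : Cfg → ℝ) (η : Cfg) : ℝ :=
  ∑ᶠ x, c x η * (if η x then q else 1 - q) * (f (flipAt η x) - f η)

/-- Continuous functions on the configuration space. -/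
abbrev Obs := C(Cfg, ℝ)

/-- `T` is a Markov operator: linear, positive, and fixing the constant function one. -/
def IsMarkov (T : Obs → Obs) : Prop :=
  IsLinearMap ℝ T ∧ (∀ f : Obs, (∀ η, 0 ≤ f η) → ∀ η, 0 ≤ T f η) ∧ T 1 = 1

/-- `P t`, `t ≥ 0`, is a Feller (Markov) semigroup on the continuous functions whose generator
acts on local functions as `gen q c`. -/
structure IsSemigroup (q : ℝ) (c : ℤ × ℤ → Cfg → ℝ) (P : ℝ → Obs → Obs) : Prop where
  markov : ∀ t, 0 ≤ t → IsMarkov (P t)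
  zero : ∀ f, P 0 f = f
  add : ∀ s t, 0 ≤ s → 0 ≤ t → ∀ f, P (s + t) f = P s (P t f)
  cont : ∀ f, TendstoUniformly (fun (t : ℝ) η => P t f η) f (𝓝[>] 0)
  gen : ∀ f : Obs, IsLocal f →
    TendstoUniformly (fun (t : ℝ) η => (P t f η - f η) / t) (gen q c f) (𝓝[>] 0)

/-- `μ P t = μ` for all `t ≥ 0`. -/
def IsStationary (P : ℝ → Obs → Obs) (μ : Measure Cfg) : Prop :=
  ∀ t, 0 ≤ t → ∀ f : Obs, ∫ η, P t f η ∂μ = ∫ η, f η ∂μ

/-- The product measure in which each site is empty with probability `q`. -/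
noncomputable def bern (q : ℝ) : Measure Cfg :=
  Measure.infinitePi fun _ =>
    ENNReal.ofReal (1 - q) • Measure.dirac true + ENNReal.ofReal q • Measure.dirac false

open Classical in
/-- One step of bootstrap percolation on the sites of `Λ`: every site of `Λ` whose constraint is
satisfied is emptied, every site outside `Λ` is filled. -/
noncomputable def bpStep (c : ℤ × ℤ → Cfg → ℝ) (Λ : Set (ℤ × ℤ)) (η : Cfg) : Cfg := fun x =>
  if x ∈ Λ then (if 0 < c x η then false else η x) else true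

open Classical in
/-- The limit of bootstrap percolation on `Λ` started from `η` on `Λ`, filled outside `Λ`: a site
is filled if it is filled at every step. -/
noncomputable def bpLim (c : ℤ × ℤ → Cfg → ℝ) (Λ : Set (ℤ × ℤ)) (η : Cfg) : Cfg := fun x =>
  decide (∀ n, (bpStep c Λ)^[n] (fun y => if y ∈ Λ then η y else true) x = true)

/-- The box `{-L, ..., L}²`. -/
def boxS (L : ℕ) : Set (ℤ × ℤ) := {x | |x.1| ≤ L ∧ |x.2| ≤ L}

/-- The event `A_L(β)`. -/
def evA (c : ℤ × ℤ → Cfg → ℝ) (L : ℕ) (β : Cfg) : Set Cfg :=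
  {η | ∀ x ∈ boxS L, bpLim c (boxS L) η x = β x}

/-- The conditional probability of `E` given `A_L(β)`. -/
noncomputable def condP (q : ℝ) (c : ℤ × ℤ → Cfg → ℝ) (L : ℕ) (β : Cfg) (E : Set Cfg) : ℝ≥0∞ :=
  bern q (evA c L β ∩ E) / bern q (evA c L β)

/-- `β` is a fixed point of bootstrap percolation and is admissible. -/
def Admissible (q : ℝ) (c : ℤ × ℤ → Cfg → ℝ) (β : Cfg) : Prop :=
  bpLim c Set.univ β = β ∧ (∀ᶠ L in atTop, 0 < bern q (evA c L β)) ∧
    ∀ E : Set Cfg, IsLocal (fun η => η ∈ E) → ∃ l, Tendsto (fun L => condP q c L β E) atTop (𝓝 l)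

/-- `π_β(E)`, the limit of the conditional probabilities. -/
noncomputable def piLim (q : ℝ) (c : ℤ × ℤ → Cfg → ℝ) (β : Cfg) (E : Set Cfg) : ℝ≥0∞ :=
  limUnder atTop fun L => condP q c L β E

/-- `μ` is a mixture of the `π_β` over admissible `β` (on local events). -/
def Representable (q : ℝ) (c : ℤ × ℤ → Cfg → ℝ) (μ : Measure Cfg) : Prop :=
  ∃ ν : Measure Cfg, IsProbabilityMeasure ν ∧ (∀ᵐ β ∂ν, Admissible q c β) ∧
    ∀ E : Set Cfg, IsLocal (fun η => η ∈ E) →
      AEMeasurable (fun β => piLim q c β E) ν ∧ μ E = ∫⁻ β, piLim q c β E ∂ν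

/-- The Fredrickson-Andersen 4-facilitated constraint: all four neighbours are empty. -/
def fa4 (x : ℤ × ℤ) (η : Cfg) : ℝ :=
  if η (x.1 + 1, x.2) = false ∧ η (x.1 - 1, x.2) = false ∧ η (x.1, x.2 + 1) = false ∧
    η (x.1, x.2 - 1) = false then 1 else 0

end Pool.Agent.H851Z.KCM
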