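import Pool.Agent.H851Z.KCM.Gibbs

set_option autoImplicit false

namespace Pool.Agent.H851Z.KCM

open Filter Topology MeasureTheory
open scoped ENNReal

theorem bpLim_true {c : ℤ × ℤ → Cfg → ℝ} {Λ : Set (ℤ × ℤ)} {η : Cfg} {x : ℤ × ℤ}
    (h : bpLim c Λ η x = true) (hx : x ∈ Λ) : η x = true := by
  simp only [bpLim, decide_eq_true_eq] at h
  simpa [hx] using h 0

theorem fixed_adj {β : Cfg} (hβ : bpLim fa4 Set.univ β = β) {x : ℤ × ℤ} (hx : β x = true) :
    ∃ y, adj x y ∧ β y = true := by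
  by_contra h
  have h1 : ∀ y, adj x y → β y = false := fun y hy => by
    by_contra h2
    exact h ⟨y, hy, by simpa using h2⟩
  have h2 : bpLim fa4 Set.univ β x = true := by rw [hβ, hx]
  simp only [bpLim, decide_eq_true_eq] at h2
  have h3 := h2 1
  simp [bpStep, fa4_one h1] at h3

theorem bern_prob {q : ℝ} (h0 : 0 ≤ q) (h1 : q ≤ 1) : IsProbabilityMeasure (bern q) := by
  have h : IsProbabilityMeasure (ENNReal.ofReal (1 - q) • Measure.dirac true +
      ENNReal.ofReal q • Measure.dirac false) := by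
    constructor
    simp only [Measure.add_apply, Measure.smul_apply, measure_univ, smul_eq_mul, mul_one]
    rw [← ENNReal.ofReal_add (by linarith) h0]
    simp
  unfold bern
  infer_instance

theorem piLim_one {q : ℝ} (h0 : 0 ≤ q) (h1 : q ≤ 1) {c : ℤ × ℤ → Cfg → ℝ} {β : Cfg}
    (hβ : Admissible q c β) {x y : ℤ × ℤ} (hx : β x = true) (hy : β y = true) :
    piLim q c β {η | η x = true ∧ η y = true} = 1 := by
  have := bern_prob h0 h1
  refine Tendsto.limUnder_eq (tendsto_const_nhds.congr' ?_)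
  filter_upwards [hβ.2.1, eventually_ge_atTop (x.1.natAbs + x.2.natAbs),
    eventually_ge_atTop (y.1.natAbs + y.2.natAbs)] with L h2 h3 h4
  have h5 : x ∈ boxS L := ⟨abs_le.2 ⟨by omega, by omega⟩, abs_le.2 ⟨by omega, by omega⟩⟩
  have h6 : y ∈ boxS L := ⟨abs_le.2 ⟨by omega, by omega⟩, abs_le.2 ⟨by omega, by omega⟩⟩
  have h7 : evA c L β ⊆ {η | η x = true ∧ η y = true} := fun η h =>
    ⟨bpLim_true ((h x h5).trans hx) h5, bpLim_true ((h y h6).trans hy) h6⟩
  rw [condP, Set.inter_eq_left.2 h7, ENNReal.div_self h2.ne' (measure_ne_top _ _)]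

theorem intC_ind (μ : Measure Cfg) [IsProbabilityMeasure μ] {E : Set Cfg} (hE : MeasurableSet E)
    {F : XX} (h : ∀ η, F η = E.indicator 1 η) : intC μ F = μ.real E := by
  rw [intC_apply, ← integral_indicator_one hE]
  exact congrArg _ (funext h)

theorem meas_oc (x : ℤ × ℤ) : MeasurableSet {η : Cfg | η x = true} :=
  measurableSet_eq_fun (measurable_pi_apply x) measurable_const

theorem rep_eq {q : ℝ} (h0 : 0 ≤ q) (h1 : q ≤ 1) (μ : Measure Cfg) [IsProbabilityMeasure μ]
    (hμ : ∀ x y, adj x y → intC μ (oc x * oc y) = 0) (hr : Representable q fa4 μ) (o : ℤ × ℤ) :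
    intC μ (oc o) = (piLim q fa4 (fun _ => false) {η | η o = true}).toReal := by
  obtain ⟨ν, hν, h2, h3⟩ := hr
  have h4 : ∀ p : (ℤ × ℤ) × (ℤ × ℤ), ∀ᵐ β ∂ν, adj p.1 p.2 →
      piLim q fa4 β {η | η p.1 = true ∧ η p.2 = true} = 0 := by
    rintro ⟨x, y⟩
    by_cases h : adj x y
    · obtain ⟨h5, h6⟩ := h3 {η | η x = true ∧ η y = true} ⟨{x, y}, fun η ξ h => by
        simp only [Set.mem_setOf_eq]
        rw [h x (by simp), h y (by simp)]⟩
      have h7 : μ {η | η x = true ∧ η y = true} = 0 := by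
        rw [← measureReal_eq_zero_iff, ← hμ x y h]
        refine (intC_ind μ ((meas_oc x).inter (meas_oc y)) fun η => ?_).symm
        rw [ContinuousMap.mul_apply, oc_apply, oc_apply]
        by_cases h8 : η x = true <;> by_cases h9 : η y = true <;> simp [Set.indicator, h8, h9]
      rw [h7, eq_comm, lintegral_eq_zero_iff' h5] at h6
      filter_upwards [h6] with β h8 _ using h8
    · exact Eventually.of_forall fun _ h' => absurd h' h
  have h5 : ∀ᵐ β ∂ν, β = fun _ => false := by
    filter_upwards [h2, ae_all_iff.2 h4] with β h5 h6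
    funext x
    by_contra h7
    have h8 : β x = true := by simpa using h7
    obtain ⟨y, h9, h10⟩ := fixed_adj h5.1 h8
    have h11 := h6 (x, y) h9
    rw [piLim_one h0 h1 h5 h8 h10] at h11
    exact one_ne_zero h11
  have h6 := (h3 {η | η o = true} ⟨{o}, fun η ξ h => by
    simp only [Set.mem_setOf_eq]
    rw [h o (by simp)]⟩).2
  rw [lintegral_congr_ae (g := fun _ => piLim q fa4 (fun _ => false) {η | η o = true})
    (by filter_upwards [h5] with β h using by rw [h]), lintegral_const, measure_univ,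
    mul_one] at h6
  rw [← h6]
  refine intC_ind μ (meas_oc o) fun η => ?_
  rw [oc_apply]
  by_cases h8 : η o = true <;> simp [Set.indicator, h8]

theorem main : ∃ q : ℝ, 0 < q ∧ q < 1 ∧ IsKCM fa4 ∧ (∃ P, IsSemigroup q fa4 P) ∧
    ∃ μ : Measure Cfg, IsProbabilityMeasure μ ∧
      (∀ P, IsSemigroup q fa4 P → IsStationary P μ) ∧ ¬ Representable q fa4 μ := by
  have q1 := qq_pos
  have q2 := qq_le
  refine ⟨qq, q1, by linarith, isKCM_fa4, exists_semigroup rates_aa aa_apply, ?_⟩
  obtain ⟨μ, hμ, a1, a2, a3⟩ := exists_gibbs 0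
  obtain ⟨ν, hν, b1, b2, b3⟩ := exists_gibbs 1
  by_contra h
  have h1 : Representable qq fa4 μ := by
    by_contra h1
    exact h ⟨μ, hμ, fun P hP => stationary rates_aa aa_apply μ a1 hP, h1⟩
  have h2 : Representable qq fa4 ν := by
    by_contra h2
    exact h ⟨ν, hν, fun P hP => stationary rates_aa aa_apply ν b1 hP, h2⟩
  have h3 := oc_lower μ a1 a3 (o := (0, 0)) (by simp [ev])
  have h4 := b3 (0, 0) (by simp [ev])
  rw [rep_eq q1.le (by linarith) μ a2 h1] at h3
  rw [rep_eq q1.le (by linarith) ν b2 h2] at h4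
  linarith

end Pool.Agent.H851Z.KCM
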