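import Pool.Agent.H851Z.KCM.Semi3

set_option autoImplicit false

namespace Pool.Agent.H851Z.KCM

open Filter Topology MeasureTheory

theorem fug_ge : 1 ≤ fug := by unfold fug; norm_num

/-- the density of empty sites -/
noncomputable def qq : ℝ := 1 / (1 + fug)

theorem qq_pos : 0 < qq := by have := fug_ge; unfold qq; positivity

theorem qq_eq : 1 - qq = fug * qq := by
  have := fug_ge
  unfold qq
  field_simp
  ring

theorem qq_le : qq ≤ 1 / 2 := by
  have h1 := fug_ge
  have h2 := qq_pos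
  have h3 := qq_eq
  nlinarith

theorem fa4_iff {x : ℤ × ℤ} {η : Cfg} : (η (x.1 + 1, x.2) = false ∧ η (x.1 - 1, x.2) = false ∧
    η (x.1, x.2 + 1) = false ∧ η (x.1, x.2 - 1) = false) ↔ ∀ y, adj x y → η y = false := by
  constructor
  · rintro ⟨h1, h2, h3, h4⟩ ⟨i, j⟩ h
    have h5 : (i, j) = (x.1 + 1, x.2) ∨ (i, j) = (x.1 - 1, x.2) ∨ (i, j) = (x.1, x.2 + 1) ∨
        (i, j) = (x.1, x.2 - 1) := by
      simp only [adj] at h
      simp only [Prod.mk.injEq]
      omega
    rcases h5 with h5 | h5 | h5 | h5 <;> rw [h5] <;> assumption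
  · exact fun h => ⟨h _ (by simp [adj]), h _ (by simp [adj]), h _ (by simp [adj]),
      h _ (by simp [adj])⟩

theorem fa4_one {x : ℤ × ℤ} {η : Cfg} (h : ∀ y, adj x y → η y = false) : fa4 x η = 1 :=
  if_pos (fa4_iff.2 h)

theorem fa4_zero {x : ℤ × ℤ} {η : Cfg} (h : ¬ ∀ y, adj x y → η y = false) : fa4 x η = 0 :=
  if_neg fun h' => h (fa4_iff.1 h')

theorem fa4_congr {x : ℤ × ℤ} {η ξ : Cfg} (h : ∀ y, adj x y → η y = ξ y) : fa4 x η = fa4 x ξ := by
  unfold fa4
  rw [h _ (by simp [adj] : adj x (x.1 + 1, x.2)), h _ (by simp [adj] : adj x (x.1 - 1, x.2)),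
    h _ (by simp [adj] : adj x (x.1, x.2 + 1)), h _ (by simp [adj] : adj x (x.1, x.2 - 1))]

theorem fa4_nonneg (x : ℤ × ℤ) (η : Cfg) : 0 ≤ fa4 x η := by
  unfold fa4; split_ifs <;> norm_num

theorem fa4_le (x : ℤ × ℤ) (η : Cfg) : fa4 x η ≤ 1 := by
  unfold fa4; split_ifs <;> norm_num

theorem adj_ne {x y : ℤ × ℤ} (h : adj x y) : y ≠ x := by
  rintro rfl
  unfold adj at h
  omega

theorem isKCM_fa4 : IsKCM fa4 := by
  refine ⟨fa4_nonneg, 1, fun x η ξ h => fa4_congr fun y hy => h y ⟨dist_pos.2 (adj_ne hy), ?_⟩⟩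
  rw [Prod.dist_eq, Int.dist_eq', Int.dist_eq', max_le_iff]
  unfold adj at hy
  constructor
  · exact_mod_cast (show |y.1 - x.1| ≤ 1 from abs_le.2 ⟨by omega, by omega⟩)
  · exact_mod_cast (show |y.2 - x.2| ≤ 1 from abs_le.2 ⟨by omega, by omega⟩)

theorem cont_of_local {f : Cfg → ℝ} (hf : IsLocal f) : Continuous f := by
  obtain ⟨S, hS⟩ := hf
  obtain ⟨g, rfl⟩ := dependsOn_iff_exists_comp.1 hS
  exact continuous_of_discreteTopology.comp (continuous_pi fun i => continuous_apply _)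

theorem rate_local (x : ℤ × ℤ) : IsLocal fun η : Cfg => fa4 x η * if η x then qq else 1 - qq := by
  refine ⟨{x, (x.1 + 1, x.2), (x.1 - 1, x.2), (x.1, x.2 + 1), (x.1, x.2 - 1)}, fun η ξ h => ?_⟩
  simp only [fa4]
  rw [h x (by simp), h (x.1 + 1, x.2) (by simp), h (x.1 - 1, x.2) (by simp),
    h (x.1, x.2 + 1) (by simp), h (x.1, x.2 - 1) (by simp)]

/-- the flip rates -/
noncomputable def aa (x : ℤ × ℤ) : XX :=
  ⟨fun η => fa4 x η * if η x then qq else 1 - qq, cont_of_local (rate_local x)⟩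

theorem aa_apply (x : ℤ × ℤ) (η : Cfg) : aa x η = fa4 x η * if η x then qq else 1 - qq := rfl

theorem rates_aa : Rates aa := by
  have h1 := qq_pos
  have h2 := qq_le
  refine ⟨fun x η => ?_, fun x η => ?_, fun x u η h3 h4 => ?_, rate_local⟩
  · rw [aa_apply]
    refine mul_nonneg (fa4_nonneg x η) ?_
    split_ifs <;> linarith
  · rw [aa_apply]
    refine mul_le_one₀ (fa4_le x η) ?_ ?_ <;> split_ifs <;> linarith
  · rw [aa_apply, aa_apply, flipAt_ne η h3.symm,
      fa4_congr (ξ := η) fun y hy => flipAt_ne η (x := u) fun e => h4 (by rw [← e]; exact hy)]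

/-- occupation variable -/
noncomputable def oc (x : ℤ × ℤ) : XX :=
  ⟨fun η => if η x then 1 else 0, cont_of_local ⟨{x}, fun η ξ h => by
    simp only []
    rw [h x (by simp)]⟩⟩

theorem oc_apply (x : ℤ × ℤ) (η : Cfg) : oc x η = if η x then 1 else 0 := rfl

open Classical in
/-- configuration of a finite set of particles with boundary condition -/
noncomputable def cf (s : ℤ) (L : ℕ) (σ : Finset (ℤ × ℤ)) : Cfg := fun x => decide (occ s L σ x)

theorem cf_true {s : ℤ} {L : ℕ} {σ : Finset (ℤ × ℤ)} {x : ℤ × ℤ} :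
    cf s L σ x = true ↔ occ s L σ x := by simp [cf]

theorem cf_false {s : ℤ} {L : ℕ} {σ : Finset (ℤ × ℤ)} {x : ℤ × ℤ} :
    cf s L σ x = false ↔ ¬ occ s L σ x := by simp [cf]

/-- partition function -/
noncomputable def ZZ (s : ℤ) (L : ℕ) : ℝ := ∑ σ ∈ II s L, fug ^ σ.card

theorem ZZ_pos (s : ℤ) (L : ℕ) : 0 < ZZ s L := by
  have h := fug_ge
  refine Finset.sum_pos (fun _ _ => by positivity) ⟨∅, mem_II.2 ⟨by simp, ?_⟩⟩
  intro x y hxy hx hy
  simp only [occ, Finset.notMem_empty, false_or] at hx hy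
  exact (adj_ev hxy).1 hx.2 hy.2

/-- finite volume Gibbs measure -/
noncomputable def mu (s : ℤ) (L : ℕ) : Measure Cfg :=
  ∑ σ ∈ II s L, ENNReal.ofReal (fug ^ σ.card / ZZ s L) • Measure.dirac (cf s L σ)

instance mu_prob (s : ℤ) (L : ℕ) : IsProbabilityMeasure (mu s L) := by
  have h := fug_ge
  have h1 := ZZ_pos s L
  constructor
  simp only [mu, Measure.coe_finset_sum, Finset.sum_apply, Measure.smul_apply, measure_univ,
    smul_eq_mul, mul_one]
  rw [← ENNReal.ofReal_sum_of_nonneg (fun _ _ => by positivity), ← Finset.sum_div]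
  change ENNReal.ofReal (ZZ s L / ZZ s L) = 1
  rw [div_self h1.ne', ENNReal.ofReal_one]

theorem mu_int (s : ℤ) (L : ℕ) (F : XX) :
    intC (mu s L) F = (∑ σ ∈ II s L, fug ^ σ.card * F (cf s L σ)) / ZZ s L := by
  have h := fug_ge
  have h1 := ZZ_pos s L
  rw [intC_apply, mu, integral_finsetSum_measure
    (fun σ _ => (integ _ F).smul_measure ENNReal.ofReal_ne_top), Finset.sum_div]
  refine Finset.sum_congr rfl fun σ _ => ?_
  rw [integral_smul_measure, integral_dirac, ENNReal.toReal_ofReal (by positivity), smul_eq_mul]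
  ring

theorem mu_adj (s : ℤ) (L : ℕ) {x y : ℤ × ℤ} (h : adj x y) : intC (mu s L) (oc x * oc y) = 0 := by
  rw [mu_int, Finset.sum_eq_zero, zero_div]
  intro σ hσ
  rw [ContinuousMap.mul_apply, oc_apply, oc_apply]
  by_cases hx : occ s L σ x
  · rw [cf_false.2 ((mem_II.1 hσ).2 x y h hx)]
    simp
  · rw [cf_false.2 hx]
    simp

theorem mu_peierls (s : ℤ) (L : ℕ) {o : ℤ × ℤ} (ho : ¬ ev s o) : intC (mu s L) (oc o) ≤ 1 / 7 := by
  classical
  rw [mu_int, div_le_iff₀ (ZZ_pos s L)]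
  refine le_trans (le_of_eq ?_) (peierls s L ho)
  rw [Finset.sum_filter]
  refine Finset.sum_congr rfl fun σ _ => ?_
  rw [oc_apply]
  by_cases h : occ s L σ o
  · rw [cf_true.2 h]
    simp [h]
  · rw [cf_false.2 h]
    simp [h]

theorem cf_flip {s : ℤ} {L : ℕ} {x : ℤ × ℤ} (hx : x ∈ box L) (σ : Finset (ℤ × ℤ)) :
    cf s L (symmDiff σ {x}) = flipAt (cf s L σ) x := by
  funext y
  by_cases h : y = x
  · rw [h, flipAt_self]
    by_cases h1 : x ∈ σ <;> simp [cf, occ, hx, h1, Finset.mem_symmDiff]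
  · rw [flipAt_ne _ h]
    simp [cf, occ, h, Finset.mem_symmDiff]

theorem mu_bal (s : ℤ) (L : ℕ) {x : ℤ × ℤ} (hx : x ∈ box L) (F : XX) :
    intC (mu s L) (L1 (aa x) x F) = 0 := by
  classical
  rw [mu_int, div_eq_zero_iff]
  left
  rw [← Finset.sum_filter_of_ne (p := fun σ => ∀ y, adj x y → cf s L σ y = false)]
  · refine Finset.sum_involution (fun σ _ => symmDiff σ {x}) (fun σ hσ => ?_) (fun σ _ _ h => ?_)
      (fun σ hσ => ?_) (fun σ _ => symmDiff_symmDiff_cancel_right _ _)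
    · have h1 := (Finset.mem_filter.1 hσ).2
      rw [L1_apply, L1_apply, cf_flip hx, flipAt_flipAt, aa_apply, aa_apply, fa4_one h1,
        fa4_one fun y hy => (flipAt_ne _ (adj_ne hy)).trans (h1 y hy), flipAt_self, qq_eq]
      by_cases h2 : x ∈ σ
      · have h3 : σ.card = (symmDiff σ {x}).card + 1 := by
          have h4 : symmDiff σ {x} = σ.erase x := by
            ext y
            by_cases h5 : y = x <;> simp [Finset.mem_symmDiff, h5, h2]
          rw [h4, Finset.card_erase_add_one h2]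
        rw [cf_true.2 (Or.inl h2), h3]
        simp only [Bool.not_true, Bool.false_eq_true, if_true, if_false]
        ring
      · have h3 : (symmDiff σ {x}).card = σ.card + 1 := by
          have h4 : symmDiff σ {x} = insert x σ := by
            ext y
            by_cases h5 : y = x <;> simp [Finset.mem_symmDiff, h5, h2]
          rw [h4, Finset.card_insert_of_notMem h2]
        rw [cf_false.2 (by simp [occ, h2, hx]), h3]
        simp only [Bool.not_false, Bool.false_eq_true, if_true, if_false]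
        ring
    · have h1 : x ∈ symmDiff σ {x} ↔ x ∈ σ := by rw [h]
      simp [Finset.mem_symmDiff] at h1
    · obtain ⟨h1, h2⟩ := Finset.mem_filter.1 hσ
      obtain ⟨h3, h4⟩ := mem_II.1 h1
      refine Finset.mem_filter.2 ⟨mem_II.2 ⟨fun y hy => ?_, fun u v huv hu hv => ?_⟩,
        fun y hy => ?_⟩
      · rcases Finset.mem_symmDiff.1 hy with h5 | h5
        · exact h3 h5.1
        · rw [Finset.mem_singleton.1 h5.1]
          exact hx
      · rw [← cf_true, cf_flip hx] at hu hv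
        by_cases h5 : u = x
        · rw [h5] at huv
          rw [flipAt_ne _ (adj_ne huv), h2 v huv] at hv
          exact Bool.false_ne_true hv
        · by_cases h6 : v = x
          · rw [h6] at huv
            rw [flipAt_ne _ h5, h2 u huv.symm] at hu
            exact Bool.false_ne_true hu
          · rw [flipAt_ne _ h5, cf_true] at hu
            rw [flipAt_ne _ h6, cf_true] at hv
            exact h4 u v huv hu hv
      · rw [cf_flip hx, flipAt_ne _ (adj_ne hy), h2 y hy]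
  · intro σ _ h
    by_contra h1
    exact h (by rw [L1_apply, aa_apply, fa4_zero h1, zero_mul, zero_mul, mul_zero])

theorem exists_gibbs (s : ℤ) : ∃ (μ : Measure Cfg) (_ : IsProbabilityMeasure μ),
    (∀ x F, intC μ (L1 (aa x) x F) = 0) ∧ (∀ x y, adj x y → intC μ (oc x * oc y) = 0) ∧
      ∀ o, ¬ ev s o → intC μ (oc o) ≤ 1 / 7 := by
  let m : ℕ → ProbabilityMeasure Cfg := fun L => ⟨mu s L, mu_prob s L⟩
  let U : Ultrafilter ℕ := Ultrafilter.of atTop
  have hU : (U : Filter ℕ) ≤ atTop := Ultrafilter.of_le _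
  obtain ⟨μ, -, hμ⟩ := isCompact_univ.ultrafilter_le_nhds (U.map m) (by simp)
  have h1 : ∀ F : XX, Tendsto (fun L => intC (mu s L) F) U (𝓝 (intC (μ : Measure Cfg) F)) :=
    fun F => ProbabilityMeasure.tendsto_iff_forall_integral_tendsto.1
      (show Tendsto m U (𝓝 μ) from hμ) (BoundedContinuousFunction.mkOfCompact F)
  refine ⟨μ, inferInstance, fun x F => ?_, fun x y h => ?_, fun o ho => ?_⟩
  · refine tendsto_nhds_unique (h1 _) (tendsto_const_nhds.congr' (hU ?_))
    filter_upwards [eventually_ge_atTop (x.1.natAbs + x.2.natAbs)] with L hL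
    exact (mu_bal s L (mem_box.2 (by omega)) F).symm
  · exact tendsto_nhds_unique (h1 _) (tendsto_const_nhds.congr fun L => (mu_adj s L h).symm)
  · exact le_of_tendsto' (h1 _) fun L => mu_peierls s L ho

theorem oc_lower (μ : Measure Cfg) [IsProbabilityMeasure μ]
    (h1 : ∀ x F, intC μ (L1 (aa x) x F) = 0) {s : ℤ} (h2 : ∀ o, ¬ ev s o → intC μ (oc o) ≤ 1 / 7)
    {o : ℤ × ℤ} (ho : ev s o) : 1 / 7 < intC μ (oc o) := by
  have q1 := qq_pos
  have q2 := qq_le
  have h3 : intC μ ((1 - qq) • 1) ≤ intC μ ((1 - qq) • (oc (o.1 + 1, o.2) + oc (o.1 - 1, o.2) +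
      oc (o.1, o.2 + 1) + oc (o.1, o.2 - 1)) + L1 (aa o) o (oc o) + oc o) := by
    refine integral_mono (integ μ _) (integ μ _) fun η => ?_
    simp only [ContinuousMap.add_apply, ContinuousMap.smul_apply, ContinuousMap.one_apply,
      L1_apply, aa_apply, oc_apply, flipAt_self, fa4, smul_eq_mul]
    cases η o <;> cases η (o.1 + 1, o.2) <;> cases η (o.1 - 1, o.2) <;> cases η (o.1, o.2 + 1) <;>
      cases η (o.1, o.2 - 1) <;> simp <;> linarith
  have h4 : intC μ 1 = 1 := by simp [intC_apply]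
  have a1 := h2 _ ((adj_ev (by simp [adj] : adj o (o.1 + 1, o.2))).1 ho)
  have a2 := h2 _ ((adj_ev (by simp [adj] : adj o (o.1 - 1, o.2))).1 ho)
  have a3 := h2 _ ((adj_ev (by simp [adj] : adj o (o.1, o.2 + 1))).1 ho)
  have a4 := h2 _ ((adj_ev (by simp [adj] : adj o (o.1, o.2 - 1))).1 ho)
  simp only [map_add, map_smul, h1, h4, smul_eq_mul] at h3
  nlinarith

end Pool.Agent.H851Z.KCM
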