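import Pool.Agent.H851Z.KCM.Contour

set_option autoImplicit false

namespace Pool.Agent.H851Z.KCM

open Finset

/-- nearest neighbours -/
def adj (x y : ℤ × ℤ) : Prop :=
  (x.1 = y.1 ∧ (x.2 = y.2 + 1 ∨ y.2 = x.2 + 1)) ∨ (x.2 = y.2 ∧ (x.1 = y.1 + 1 ∨ y.1 = x.1 + 1))

instance : DecidableRel adj := fun x y => by unfold adj; infer_instance

theorem adj.symm {x y : ℤ × ℤ} (h : adj x y) : adj y x := by
  unfold adj at *; omega

/-- the favoured sublattice -/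
def ev (s : ℤ) (x : ℤ × ℤ) : Prop := (x.1 + x.2 + s) % 2 = 0

instance (s : ℤ) : DecidablePred (ev s) := fun x => by unfold ev; infer_instance

theorem adj_ev {s : ℤ} {x y : ℤ × ℤ} (h : adj x y) : ev s x ↔ ¬ ev s y := by
  unfold adj ev at *; omega

/-- the box -/
noncomputable def box (L : ℕ) : Finset (ℤ × ℤ) := Icc (-(L : ℤ)) L ×ˢ Icc (-(L : ℤ)) L

theorem mem_box {L : ℕ} {x : ℤ × ℤ} :
    x ∈ box L ↔ (-(L : ℤ) ≤ x.1 ∧ x.1 ≤ L) ∧ (-(L : ℤ) ≤ x.2 ∧ x.2 ≤ L) := by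
  simp [box]

/-- occupied sites: `σ` inside the box, the favoured sublattice outside -/
def occ (s : ℤ) (L : ℕ) (σ : Finset (ℤ × ℤ)) (x : ℤ × ℤ) : Prop := x ∈ σ ∨ (x ∉ box L ∧ ev s x)

/-- hard-core condition -/
def HC (η : ℤ × ℤ → Prop) : Prop := ∀ x y, adj x y → η x → ¬ η y

open Classical in
/-- allowed configurations in the box -/
noncomputable def II (s : ℤ) (L : ℕ) : Finset (Finset (ℤ × ℤ)) :=
  (box L).powerset.filter fun σ => HC (occ s L σ)

theorem mem_II {s : ℤ} {L : ℕ} {σ : Finset (ℤ × ℤ)} : σ ∈ II s L ↔ σ ⊆ box L ∧ HC (occ s L σ) := by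
  simp [II]

theorem adj_other (a : Ed) : adj a.1 (other a) := by
  obtain ⟨⟨i, j⟩, c⟩ := a
  cases c <;> simp [adj, other]

theorem exists_edge {x y : ℤ × ℤ} (h : adj x y) :
    ∃ a : Ed, (a.1 = x ∧ other a = y) ∨ (a.1 = y ∧ other a = x) := by
  obtain ⟨i, j⟩ := x
  obtain ⟨k, l⟩ := y
  simp only [adj] at h
  rcases h with ⟨h1, h2 | h2⟩ | ⟨h1, h2 | h2⟩
  · exact ⟨((k, l), true), Or.inr ⟨rfl, by simp [other, h1, h2]⟩⟩
  · exact ⟨((i, j), true), Or.inl ⟨rfl, by simp [other, h1, h2]⟩⟩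
  · exact ⟨((k, l), false), Or.inr ⟨rfl, by simp [other, h1, h2]⟩⟩
  · exact ⟨((i, j), false), Or.inl ⟨rfl, by simp [other, h1, h2]⟩⟩

open Classical in
/-- configurations that are empty along `K` -/
noncomputable def GK (s : ℤ) (L : ℕ) (K : Finset Ed) : Finset (Finset (ℤ × ℤ)) :=
  (II s L).filter fun σ => ∀ a ∈ K, ¬ occ s L σ a.1 ∧ ¬ occ s L σ (other a)

theorem mem_GK {s : ℤ} {L : ℕ} {K : Finset Ed} {σ : Finset (ℤ × ℤ)} :
    σ ∈ GK s L K ↔ σ ∈ II s L ∧ ∀ a ∈ K, ¬ occ s L σ a.1 ∧ ¬ occ s L σ (other a) := by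
  simp [GK]

theorem shift_bound {s : ℤ} {L : ℕ} {K : Finset Ed} (hE : Ev K) (hB : ∀ x, ins K x → x ∈ box L)
    (e : ℤ × ℤ) (he : adj 0 e) (p : ℤ) (lam : ℝ) (hl : 0 ≤ lam) :
    ∑ σ ∈ GK s L K, lam ^ (σ.card +
      ((box L).filter fun z => ins K z ∧ ¬ ins K (z - e) ∧ ev p z).card) ≤
      ∑ σ ∈ II s L, lam ^ σ.card := by
  classical
  obtain ⟨F, hF⟩ : ∃ F, F = (box L).filter fun z => ins K z ∧ ¬ ins K (z - e) ∧ ev p z := ⟨_, rfl⟩
  rw [← hF]
  have mF : ∀ z, z ∈ F ↔ ins K z ∧ ¬ ins K (z - e) ∧ ev p z := by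
    intro z
    rw [hF, mem_filter]
    exact ⟨fun h => h.2, fun h => ⟨hB z h.1, h⟩⟩
  have hadj1 : ∀ x : ℤ × ℤ, adj (x - e) x := by
    intro x
    simp only [adj, Prod.fst_sub, Prod.snd_sub, Prod.fst_zero, Prod.snd_zero] at he ⊢
    omega
  have hadj2 : ∀ x y : ℤ × ℤ, adj x y → adj (x - e) (y - e) := by
    intro x y h
    simp only [adj, Prod.fst_sub, Prod.snd_sub] at h ⊢
    omega
  have hbd : ∀ σ ∈ GK s L K, ∀ x y, adj x y → ins K x → ¬ ins K y →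
      ¬ occ s L σ x ∧ ¬ occ s L σ y := by
    intro σ hσ x y hxy h1 h2
    obtain ⟨a, ⟨h3, h4⟩ | ⟨h3, h4⟩⟩ := exists_edge hxy
    · have h5 : a ∈ K := by rw [ins_bd hE, h3, h4]; tauto
      have h6 := (mem_GK.1 hσ).2 a h5
      rwa [h3, h4] at h6
    · have h5 : a ∈ K := by rw [ins_bd hE, h3, h4]; tauto
      have h6 := (mem_GK.1 hσ).2 a h5
      rw [h3, h4] at h6
      exact ⟨h6.2, h6.1⟩
  let Φ : Finset (ℤ × ℤ) → Finset (ℤ × ℤ) := fun σ =>
    (σ.filter (fun x => ¬ ins K x) ∪ (σ.filter (ins K)).image (· + e)) ∪ F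
  have mΦ : ∀ σ y, y ∈ Φ σ ↔ ((y ∈ σ ∧ ¬ ins K y) ∨ (y - e ∈ σ ∧ ins K (y - e))) ∨ y ∈ F := by
    intro σ y
    simp only [Φ, mem_union, mem_filter, mem_image]
    refine or_congr (or_congr Iff.rfl ?_) Iff.rfl
    constructor
    · rintro ⟨x, h, rfl⟩
      simpa using h
    · intro h
      exact ⟨y - e, h, by simp⟩
  have hin : ∀ σ ∈ GK s L K, ∀ y, y - e ∈ σ → ins K (y - e) → ins K y := by
    intro σ hσ y h1 h2
    by_contra h3
    exact (hbd σ hσ _ _ (hadj1 y) h2 h3).1 (Or.inl h1)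
  have hcard : ∀ σ ∈ GK s L K, (Φ σ).card = σ.card + F.card := by
    intro σ hσ
    simp only [Φ]
    rw [card_union_of_disjoint, card_union_of_disjoint,
      card_image_of_injective _ (add_left_injective e), add_comm (filter _ σ).card,
      card_filter_add_card_filter_not]
    · rw [disjoint_left]
      intro y h1 h2
      simp only [mem_filter, mem_image] at h1 h2
      obtain ⟨x, h3, rfl⟩ := h2
      exact h1.2 (hin σ hσ _ (by simpa using h3.1) (by simpa using h3.2))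
    · rw [disjoint_left]
      intro y h1 h2
      rw [mF] at h2
      simp only [mem_union, mem_filter, mem_image] at h1
      rcases h1 with h1 | ⟨x, h3, rfl⟩
      · exact h1.2 h2.1
      · exact h2.2.1 (by simpa using h3.2)
  have hsub : ∀ σ ∈ GK s L K, ∀ σ' ∈ GK s L K, Φ σ = Φ σ' → σ ⊆ σ' := by
    intro σ hσ σ' hσ' h x hx
    by_cases h1 : ins K x
    · have h2 : x + e ∈ Φ σ' := by
        rw [← h, mΦ]
        exact Or.inl (Or.inr (by simpa using ⟨hx, h1⟩))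
      have h3 : ins K (x + e) := hin σ hσ _ (by simpa using hx) (by simpa using h1)
      rw [mΦ, mF] at h2
      rcases h2 with (h2 | h2) | h2
      · exact absurd h3 h2.2
      · simpa using h2.1
      · exact absurd (by simpa using h1) h2.2.1
    · have h2 : x ∈ Φ σ' := by
        rw [← h, mΦ]
        exact Or.inl (Or.inl ⟨hx, h1⟩)
      rw [mΦ, mF] at h2
      rcases h2 with (h2 | h2) | h2
      · exact h2.1
      · exact absurd (hin σ' hσ' _ h2.1 h2.2) h1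
      · exact absurd h2.1 h1
  have hmem : ∀ σ ∈ GK s L K, Φ σ ∈ II s L := by
    intro σ hσ
    obtain ⟨h1, h2⟩ := mem_II.1 (mem_GK.1 hσ).1
    rw [mem_II]
    constructor
    · intro y hy
      rw [mΦ, mF] at hy
      rcases hy with (h3 | h3) | h3
      · exact h1 h3.1
      · exact hB _ (hin σ hσ _ h3.1 h3.2)
      · exact hB _ h3.1
    · have key : ∀ y, occ s L (Φ σ) y → (occ s L σ y ∧ ¬ ins K y) ∨
          (ins K y ∧ ((y - e ∈ σ ∧ ins K (y - e)) ∨ (¬ ins K (y - e) ∧ ev p y))) := by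
        rintro y (h3 | h3)
        · rw [mΦ, mF] at h3
          rcases h3 with (h3 | h3) | h3
          · exact Or.inl ⟨Or.inl h3.1, h3.2⟩
          · exact Or.inr ⟨hin σ hσ _ h3.1 h3.2, Or.inl h3⟩
          · exact Or.inr ⟨h3.1, Or.inr h3.2⟩
        · exact Or.inl ⟨Or.inr h3, fun h => h3.1 (hB _ h)⟩
      intro x y hxy hx hy
      rcases key x hx with h3 | ⟨h3, h4⟩ <;> rcases key y hy with h5 | ⟨h5, h6⟩
      · exact h2 x y hxy h3.1 h5.1
      · exact (hbd σ hσ y x hxy.symm h5 h3.2).2 h3.1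
      · exact (hbd σ hσ x y hxy h3 h5.2).2 h5.1
      · rcases h4 with h4 | h4 <;> rcases h6 with h6 | h6
        · exact h2 _ _ (hadj2 _ _ hxy) (Or.inl h4.1) (Or.inl h6.1)
        · exact (hbd σ hσ _ _ (hadj2 _ _ hxy) h4.2 h6.1).1 (Or.inl h4.1)
        · exact (hbd σ hσ _ _ (hadj2 _ _ hxy.symm) h6.2 h4.1).1 (Or.inl h6.1)
        · exact (adj_ev hxy).1 h4.2 h6.2
  calc ∑ σ ∈ GK s L K, lam ^ (σ.card + F.card) = ∑ σ ∈ GK s L K, lam ^ (Φ σ).card :=
        sum_congr rfl fun σ hσ => by rw [hcard σ hσ]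
    _ = ∑ τ ∈ (GK s L K).image Φ, lam ^ τ.card := by
        rw [sum_image]
        intro σ hσ σ' hσ' h
        exact Subset.antisymm (hsub σ hσ σ' hσ' h) (hsub σ' hσ' σ hσ h.symm)
    _ ≤ ∑ σ ∈ II s L, lam ^ σ.card := by
        refine sum_le_sum_of_subset_of_nonneg ?_ fun _ _ _ => by positivity
        intro τ hτ
        rw [mem_image] at hτ
        obtain ⟨σ, hσ, rfl⟩ := hτ
        exact hmem σ hσ

/-- the four directions -/
def dir : Fin 4 → ℤ × ℤ := ![(-1, 0), (1, 0), (0, -1), (0, 1)]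

/-- the edge between `z` and `z - dir i` -/
def edg : Fin 4 → ℤ × ℤ → Ed :=
  ![fun z => (z, false), fun z => ((z.1 - 1, z.2), false), fun z => (z, true),
    fun z => ((z.1, z.2 - 1), true)]

theorem exists_dir {L : ℕ} {K : Finset Ed} (hE : Ev K) (hB : ∀ x, ins K x → x ∈ box L) :
    ∃ (e : ℤ × ℤ) (p : ℤ), adj 0 e ∧
      K.card ≤ 8 * ((box L).filter fun z => ins K z ∧ ¬ ins K (z - e) ∧ ev p z).card := by
  classical
  let F : Fin 4 × Fin 2 → Finset (ℤ × ℤ) := fun d =>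
    (box L).filter fun z => ins K z ∧ ¬ ins K (z - dir d.1) ∧ ev (d.2 : ℕ) z
  have h1 : K ⊆ univ.biUnion fun d : Fin 4 × Fin 2 => (F d).image (edg d.1) := by
    intro a ha
    have h2 := (ins_bd hE a).1 ha
    have hp : ∀ z : ℤ × ℤ, ∃ p : Fin 2, ev (p : ℕ) z := by
      intro z
      by_cases h : (z.1 + z.2) % 2 = 0
      · exact ⟨0, by simpa [ev] using h⟩
      · exact ⟨1, by simp only [ev, Fin.val_one, Nat.cast_one]; omega⟩
    simp only [mem_biUnion, mem_univ, true_and, mem_image, F, mem_filter]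
    obtain ⟨⟨i, j⟩, c⟩ := a
    by_cases h3 : ins K (i, j)
    · obtain ⟨p, hp⟩ := hp (i, j)
      have h4 : ¬ ins K (other ((i, j), c)) := by tauto
      cases c
      · exact ⟨(0, p), (i, j), ⟨hB _ h3, h3, by simpa [dir, other] using h4, hp⟩, by simp [edg]⟩
      · exact ⟨(2, p), (i, j), ⟨hB _ h3, h3, by simpa [dir, other] using h4, hp⟩, by simp [edg]⟩
    · have h4 : ins K (other ((i, j), c)) := by tauto
      obtain ⟨p, hp⟩ := hp (other ((i, j), c))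
      cases c
      · exact ⟨(1, p), _, ⟨hB _ h4, h4, by simpa [dir, other] using h3, hp⟩, by simp [edg, other]⟩
      · exact ⟨(3, p), _, ⟨hB _ h4, h4, by simpa [dir, other] using h3, hp⟩, by simp [edg, other]⟩
  obtain ⟨d, -, hd⟩ := exists_max_image (univ : Finset (Fin 4 × Fin 2)) (fun d => (F d).card)
    univ_nonempty
  refine ⟨dir d.1, (d.2 : ℕ), ?_, ?_⟩
  · generalize d.1 = i
    fin_cases i <;> simp [adj, dir]
  · refine (card_le_card h1).trans (card_biUnion_le.trans ?_)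
    refine (sum_le_card_nsmul _ _ (F d).card fun b hb => card_image_le.trans (hd b hb)).trans ?_
    simp [F]

theorem contour_bound {s : ℤ} {L : ℕ} {K : Finset Ed} (hE : Ev K) (hB : ∀ x, ins K x → x ∈ box L)
    (t : ℝ) (ht : 1 ≤ t) :
    ∑ σ ∈ GK s L K, (t ^ 8) ^ σ.card ≤ (1 / t) ^ K.card * ∑ σ ∈ II s L, (t ^ 8) ^ σ.card := by
  obtain ⟨e, p, he, hK⟩ := exists_dir hE hB
  have h1 := shift_bound (s := s) hE hB e he p (t ^ 8) (by positivity)
  simp only [pow_add] at h1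
  rw [← sum_mul] at h1
  have h2 : t ^ K.card ≤ (t ^ 8) ^
      ((box L).filter fun z => ins K z ∧ ¬ ins K (z - e) ∧ ev p z).card := by
    rw [← pow_mul]
    exact pow_le_pow_right₀ ht hK
  have h3 : 0 ≤ ∑ σ ∈ GK s L K, (t ^ 8) ^ σ.card := sum_nonneg fun _ _ => by positivity
  have h4 := (mul_le_mul_of_nonneg_left h2 h3).trans h1
  have h5 : 0 < t ^ K.card := by positivity
  rw [one_div, inv_pow, ← div_eq_inv_mul, le_div_iff₀ h5]
  exact h4

theorem exists_K {s : ℤ} {L : ℕ} {σ : Finset (ℤ × ℤ)} (hσ : σ ∈ II s L) {o : ℤ × ℤ}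
    (ho : ¬ ev s o) (hoσ : occ s L σ o) : ∃ K : Finset Ed, Ev K ∧ (∀ x, ins K x → x ∈ box L) ∧
      σ ∈ GK s L K ∧ K ∈ Fam o K.card ∧ 1 ≤ K.card := by
  classical
  obtain ⟨h1, h2⟩ := mem_II.1 hσ
  have hodd : ∀ x, ¬ ev s x → occ s L σ x → x ∈ σ := by
    rintro x h3 (h4 | h4)
    · exact h4
    · exact absurd h4.2 h3
  obtain ⟨A, hA⟩ : ∃ A, A = (box L).filter fun x =>
    (x ∈ σ ∧ ¬ ev s x) ∨ ∃ y ∈ σ, ¬ ev s y ∧ adj y x := ⟨_, rfl⟩
  have hAb : ∀ x ∈ A, x ∈ box L := fun x hx => by rw [hA, mem_filter] at hx; exact hx.1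
  have mA : ∀ x, x ∈ A ↔ (x ∈ σ ∧ ¬ ev s x) ∨ ∃ y ∈ σ, ¬ ev s y ∧ adj y x := by
    intro x
    rw [hA, mem_filter]
    refine ⟨fun h => h.2, fun h => ⟨?_, h⟩⟩
    rcases h with h | ⟨y, h3, h4, h5⟩
    · exact h1 h.1
    · by_contra h6
      refine h2 y x h5 (Or.inl h3) (Or.inr ⟨h6, ?_⟩)
      by_contra h7
      exact h4 ((adj_ev h5).2 h7)
  have hbd : ∀ u v, adj u v → u ∈ A → v ∉ A → ¬ occ s L σ u ∧ ¬ occ s L σ v := by
    intro u v huv hu hv
    rw [mA] at hu hv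
    rcases hu with hu | ⟨y, h3, h4, h5⟩
    · exact absurd (Or.inr ⟨u, hu.1, hu.2, huv⟩) hv
    · refine ⟨h2 y u h5 (Or.inl h3), fun h6 => hv (Or.inl ?_)⟩
      have h7 : ev s u := by
        by_contra h7
        exact h4 ((adj_ev h5).2 h7)
      have h8 : ¬ ev s v := (adj_ev huv).1 h7
      exact ⟨hodd v h8 h6, h8⟩
  obtain ⟨K, h3, h4, h5, h6⟩ := exists_contour A ((mA o).2 (Or.inl ⟨hodd o ho hoσ, ho⟩))
  have hend : ∀ a ∈ K, a.1 ∈ box L ∨ other a ∈ box L := by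
    intro a ha
    have h7 := h3 a ha
    by_cases h8 : a.1 ∈ A
    · exact Or.inl (hAb _ h8)
    · exact Or.inr (hAb _ (by tauto))
  refine ⟨K, h4, ?_, ?_, h5, h6⟩
  · intro x hx
    obtain ⟨i, -, h7⟩ := exists_h hx
    obtain ⟨j, -, h8⟩ := exists_v h4 hx
    have h9 := hend _ h7
    have h10 := hend _ h8
    simp only [mem_box, other, Bool.false_eq_true, if_false, if_true] at h9 h10 ⊢
    omega
  · rw [mem_GK]
    refine ⟨hσ, fun a ha => ?_⟩
    have h7 := h3 a ha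
    by_cases h8 : a.1 ∈ A
    · exact hbd _ _ (adj_other a) h8 (by tauto)
    · have h9 := hbd _ _ (adj_other a).symm (by tauto) h8
      exact ⟨h9.2, h9.1⟩

/-- the fugacity -/
noncomputable def fug : ℝ := 5184 ^ 8

open Classical in
/-- Peierls bound: a site of the other sublattice is occupied with probability at most 1/7. -/
theorem peierls (s : ℤ) (L : ℕ) {o : ℤ × ℤ} (ho : ¬ ev s o) :
    ∑ σ ∈ (II s L).filter (fun σ => occ s L σ o), fug ^ σ.card ≤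
      1 / 7 * ∑ σ ∈ II s L, fug ^ σ.card := by
  obtain ⟨S, hS⟩ : ∃ S, S = (II s L).filter (fun σ => occ s L σ o) := ⟨_, rfl⟩
  rw [← hS]
  have h1 : ∀ σ : Finset (ℤ × ℤ), ∃ K : Finset Ed, σ ∈ S → Ev K ∧ (∀ x, ins K x → x ∈ box L) ∧
      σ ∈ GK s L K ∧ K ∈ Fam o K.card ∧ 1 ≤ K.card := by
    intro σ
    by_cases h : σ ∈ S
    · rw [hS, mem_filter] at h
      obtain ⟨K, hK⟩ := exists_K h.1 ho h.2
      exact ⟨K, fun _ => hK⟩
    · exact ⟨∅, fun h' => absurd h' h⟩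
  choose Kf hKf using h1
  obtain ⟨Z, hZ⟩ : ∃ Z, Z = ∑ σ ∈ II s L, fug ^ σ.card := ⟨_, rfl⟩
  have hZ0 : 0 ≤ Z := hZ ▸ sum_nonneg fun _ _ => by unfold fug; positivity
  rw [← hZ]
  have h2 : ∑ σ ∈ S, fug ^ σ.card ≤ ∑ K ∈ S.image Kf, (1 / 5184 : ℝ) ^ K.card * Z := by
    rw [← sum_fiberwise_of_maps_to (g := Kf) (t := S.image Kf) fun σ hσ => mem_image_of_mem _ hσ]
    refine sum_le_sum fun K hK => ?_
    rw [mem_image] at hK
    obtain ⟨σ0, h0, rfl⟩ := hK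
    obtain ⟨h3, h4, -, -, -⟩ := hKf σ0 h0
    have h5 := contour_bound (s := s) h3 h4 5184 (by norm_num)
    rw [hZ]
    refine le_trans (sum_le_sum_of_subset_of_nonneg ?_ fun _ _ _ => by unfold fug; positivity) h5
    intro σ hσ
    rw [mem_filter] at hσ
    rw [← hσ.2]
    exact (hKf σ hσ.1).2.2.1
  refine h2.trans ?_
  rw [← sum_mul]
  refine mul_le_mul_of_nonneg_right ?_ hZ0
  obtain ⟨N, hN⟩ := ((S.image Kf).image card).bddAbove
  have h3 : ∀ K ∈ S.image Kf, K.card - 1 ∈ range N := by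
    intro K hK
    have h4 := hN (mem_coe.2 (mem_image_of_mem _ hK))
    rw [mem_image] at hK
    obtain ⟨σ0, h0, rfl⟩ := hK
    have h5 := (hKf σ0 h0).2.2.2.2
    rw [mem_range]
    omega
  rw [← sum_fiberwise_of_maps_to (g := fun K : Finset Ed => K.card - 1) h3]
  have h4 : ∀ n ∈ range N, ∑ K ∈ (S.image Kf).filter (fun K => K.card - 1 = n),
      (1 / 5184 : ℝ) ^ K.card ≤ (1 / 8) ^ (n + 1) := by
    intro n _
    have h5 : ∀ K ∈ (S.image Kf).filter (fun K => K.card - 1 = n),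
        K.card = n + 1 ∧ K ∈ Fam o (n + 1) := by
      intro K hK
      rw [mem_filter, mem_image] at hK
      obtain ⟨⟨σ0, h0, rfl⟩, h6⟩ := hK
      obtain ⟨-, -, -, h7, h8⟩ := hKf σ0 h0
      have h9 : (Kf σ0).card = n + 1 := by omega
      exact ⟨h9, h9 ▸ h7⟩
    rw [sum_congr rfl fun K hK => by rw [(h5 K hK).1], sum_const, nsmul_eq_mul]
    have h6 : (((S.image Kf).filter (fun K => K.card - 1 = n)).card : ℝ) ≤ 648 ^ (n + 1) := by
      have h7 := (card_le_card fun K hK => (h5 K hK).2).trans (card_Fam o (n + 1))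
      exact_mod_cast h7
    refine (mul_le_mul_of_nonneg_right h6 (by positivity)).trans (le_of_eq ?_)
    rw [← mul_pow]
    norm_num
  refine (sum_le_sum h4).trans ?_
  have h5 : ∀ N : ℕ, ∑ n ∈ range N, (1 / 8 : ℝ) ^ (n + 1) = 1 / 7 - 1 / 7 * (1 / 8) ^ N := by
    intro N
    induction N with
    | zero => simp
    | succ N ih => rw [sum_range_succ, ih]; ring
  rw [h5]
  have : (0 : ℝ) ≤ (1 / 8) ^ N := by positivity
  linarith

end Pool.Agent.H851Z.KCM
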