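import Pool.Agent.H851Z.KCM.Defs
import Pool.Agent.H851Z.KCM.Peierls

set_option autoImplicit false

namespace Pool.Agent.H851Z.KCM

open Filter Topology NormedSpace

/-- the Banach space of continuous functions -/
abbrev XX := C(Cfg, ℝ)

/-- semigroups of bounded operators -/
structure IsSemiL (q : ℝ) (c : ℤ × ℤ → Cfg → ℝ) (P : ℝ → XX →L[ℝ] XX) : Prop where
  zero : ∀ f, P 0 f = f
  add : ∀ s t, 0 ≤ s → 0 ≤ t → ∀ f, P (s + t) f = P s (P t f)
  pos : ∀ t, 0 ≤ t → ∀ f, 0 ≤ f → 0 ≤ P t f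
  one : ∀ t, 0 ≤ t → P t 1 = 1
  cont : ∀ f, Tendsto (fun t => P t f) (𝓝[>] 0) (𝓝 f)
  gen : ∀ f : XX, IsLocal f →
    TendstoUniformly (fun (t : ℝ) η => (P t f η - f η) / t) (gen q c f) (𝓝[>] 0)

theorem continuous_flipAt (x : ℤ × ℤ) : Continuous fun η : Cfg => flipAt η x :=
  continuous_id.update x ((continuous_of_discreteTopology (f := fun b : Bool => !b)).comp
    (continuous_apply x))

theorem flipAt_flipAt (η : Cfg) (x : ℤ × ℤ) : flipAt (flipAt η x) x = η := by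
  simp [flipAt]

theorem flipAt_self (η : Cfg) (x : ℤ × ℤ) : flipAt η x x = !η x := by simp [flipAt]

theorem flipAt_ne (η : Cfg) {x y : ℤ × ℤ} (h : y ≠ x) : flipAt η x y = η y := by
  simp [flipAt, h]

theorem flipAt_comm (η : Cfg) (x y : ℤ × ℤ) : flipAt (flipAt η x) y = flipAt (flipAt η y) x := by
  by_cases h : x = y
  · rw [h]
  · have h' : y ≠ x := fun e => h e.symm
    funext z
    by_cases h1 : z = x
    · subst h1
      rw [flipAt_ne _ h, flipAt_self, flipAt_self, flipAt_ne _ h]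
    · by_cases h2 : z = y
      · subst h2
        rw [flipAt_self, flipAt_ne _ h', flipAt_ne _ h', flipAt_self]
      · rw [flipAt_ne _ h2, flipAt_ne _ h1, flipAt_ne _ h1, flipAt_ne _ h2]

/-- the flip as a continuous map -/
def flipC (x : ℤ × ℤ) : C(Cfg, Cfg) := ⟨fun η => flipAt η x, continuous_flipAt x⟩

/-- the single site generator -/
noncomputable def L1 (a : XX) (x : ℤ × ℤ) : XX →L[ℝ] XX :=
  (ContinuousLinearMap.mul ℝ XX a).comp ((ContinuousMap.compRightContinuousMap ℝ (flipC x) |>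
    fun _ => ContinuousLinearMap.mk (ContinuousMap.compRightAlgHom ℝ ℝ (flipC x)).toLinearMap
      (ContinuousMap.compRightAlgHom_continuous ℝ ℝ (flipC x))) - 1)

theorem L1_apply (a : XX) (x : ℤ × ℤ) (f : XX) (η : Cfg) :
    L1 a x f η = a η * (f (flipAt η x) - f η) := rfl

/-- the weight -/
noncomputable def ww (x : ℤ × ℤ) : ℝ := (1 / 2) ^ (x.1.natAbs + x.2.natAbs)

theorem ww_pos (x : ℤ × ℤ) : 0 < ww x := by unfold ww; positivity

theorem ww_adj {x y : ℤ × ℤ} (h : adj x y) : ww x ≤ 2 * ww y := by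
  unfold ww
  have h1 : y.1.natAbs + y.2.natAbs ≤ x.1.natAbs + x.2.natAbs + 1 := by
    unfold adj at h; omega
  have h2 : (1 / 2 : ℝ) ^ (x.1.natAbs + x.2.natAbs + 1) ≤ (1 / 2) ^ (y.1.natAbs + y.2.natAbs) :=
    pow_le_pow_of_le_one (by norm_num) (by norm_num) h1
  rw [pow_succ] at h2
  linarith

theorem summable_ww : Summable ww := by
  have h1 : Summable fun n : ℤ => (1 / 2 : ℝ) ^ n.natAbs := by
    refine Summable.of_nat_of_neg ?_ ?_ <;> simpa using summable_geometric_two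
  have h2 := h1.mul_of_nonneg h1 (fun _ => by positivity) (fun _ => by positivity)
  refine h2.congr fun x => ?_
  rw [ww, pow_add]

/-- the tail of the weight -/
noncomputable def tl (Λ : Finset (ℤ × ℤ)) : ℝ := ∑' x, ww x - ∑ x ∈ Λ, ww x

theorem tl_tendsto : Tendsto tl atTop (𝓝 0) := by
  have h := (tendsto_const_nhds (x := ∑' x, ww x)).sub summable_ww.hasSum
  rw [sub_self] at h
  exact h

theorem sum_sdiff_le_tl {Λ Λ' : Finset (ℤ × ℤ)} (h : Λ ⊆ Λ') : ∑ x ∈ Λ' \ Λ, ww x ≤ tl Λ := by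
  have h1 := Finset.sum_sdiff (f := ww) h
  have h2 := summable_ww.sum_le_tsum Λ' (fun x _ => (ww_pos x).le)
  unfold tl
  linarith

theorem tl_nonneg (Λ : Finset (ℤ × ℤ)) : 0 ≤ tl Λ := by
  simpa using sum_sdiff_le_tl (Finset.Subset.refl Λ)

/-- oscillation bound -/
def Lip (f : XX) (A : ℝ) : Prop := ∀ u η, |f (flipAt η u) - f η| ≤ A * ww u

theorem Lip.nonneg {f : XX} {A : ℝ} (h : Lip f A) : 0 ≤ A := by
  have h1 := (abs_nonneg _).trans (h 0 fun _ => false)
  exact nonneg_of_mul_nonneg_left h1 (ww_pos 0)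

theorem Lip.mono {f : XX} {A B : ℝ} (h : Lip f A) (hAB : A ≤ B) : Lip f B := fun u η =>
  (h u η).trans (mul_le_mul_of_nonneg_right hAB (ww_pos u).le)

theorem flip_eq_of_dep {α : Type} {f : Cfg → α} {S : Set (ℤ × ℤ)} (h : DependsOn f S) {u : ℤ × ℤ}
    (hu : u ∉ S) (η : Cfg) : f (flipAt η u) = f η :=
  h fun i hi => flipAt_ne η fun e => hu (e ▸ hi)

theorem IsLocal.lip {f : XX} (h : IsLocal f) : ∃ A, Lip f A := by
  obtain ⟨S, hS⟩ := h
  refine ⟨∑ x ∈ S, 2 * ‖f‖ / ww x, fun u η => ?_⟩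
  have h0 : ∀ x, 0 ≤ 2 * ‖f‖ / ww x := fun x => div_nonneg (by positivity) (ww_pos x).le
  by_cases hu : u ∈ S
  · have h1 : 2 * ‖f‖ / ww u ≤ ∑ x ∈ S, 2 * ‖f‖ / ww x :=
      Finset.single_le_sum (f := fun x => 2 * ‖f‖ / ww x) (fun x _ => h0 x) hu
    rw [div_le_iff₀ (ww_pos u)] at h1
    refine le_trans ?_ h1
    have h2 := f.norm_coe_le_norm (flipAt η u)
    have h3 := f.norm_coe_le_norm η
    rw [Real.norm_eq_abs] at h2 h3
    have h4 := abs_sub (f (flipAt η u)) (f η)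
    linarith
  · rw [flip_eq_of_dep hS (by simpa using hu), sub_self, abs_zero]
    exact mul_nonneg (Finset.sum_nonneg fun x _ => h0 x) (ww_pos u).le

theorem dense_local : Dense {f : XX | IsLocal f} := by
  let A : Subalgebra ℝ XX :=
    { carrier := {f : XX | IsLocal f}
      mul_mem' := by
        rintro f g ⟨S, hS⟩ ⟨T, hT⟩
        refine ⟨S ∪ T, fun η ξ h => ?_⟩
        simp only [ContinuousMap.mul_apply]
        rw [hS fun i hi => h i (by simp [hi]), hT fun i hi => h i (by simp [Finset.mem_coe.1 hi])]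
      add_mem' := by
        rintro f g ⟨S, hS⟩ ⟨T, hT⟩
        refine ⟨S ∪ T, fun η ξ h => ?_⟩
        simp only [ContinuousMap.add_apply]
        rw [hS fun i hi => h i (by simp [hi]), hT fun i hi => h i (by simp [Finset.mem_coe.1 hi])]
      algebraMap_mem' := fun r => ⟨∅, fun η ξ _ => rfl⟩ }
  have hA : A.SeparatesPoints := by
    intro η ξ hne
    obtain ⟨x, hx⟩ := Function.ne_iff.1 hne
    let g : XX := ⟨fun ζ => if ζ x then 1 else 0,
      (continuous_of_discreteTopology (f := fun b : Bool => if b then (1 : ℝ) else 0)).comp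
        (continuous_apply x)⟩
    refine ⟨g, ⟨g, ⟨{x}, fun ζ ζ' h => ?_⟩, rfl⟩, ?_⟩
    · simp only [g, ContinuousMap.coe_mk]
      rw [h x (by simp)]
    · simp only [g, ContinuousMap.coe_mk]
      revert hx
      cases η x <;> cases ξ x <;> simp
  have h := ContinuousMap.subalgebra_topologicalClosure_eq_top_of_separatesPoints A hA
  rw [dense_iff_closure_eq]
  exact congrArg (fun B : Subalgebra ℝ XX => (B : Set XX)) h

/-- the exponential in a normed ring -/
noncomputable def ex {A : Type} [NormedRing A] (x : A) : A := exp x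

theorem hasSum_exp (B : XX →L[ℝ] XX) (t : ℝ) (φ : XX →L[ℝ] ℝ) (f : XX) :
    HasSum (fun k : ℕ => t ^ k / k.factorial * φ ((B ^ k) f)) (φ (ex (t • B) f)) := by
  have h1 : HasSum _ (ex (t • B)) := exp_series_hasSum_exp' (𝕂 := ℝ) (t • B)
  have h2 := h1.mapL (φ.comp (ContinuousLinearMap.apply ℝ XX f))
  have h3 : (fun k : ℕ => t ^ k / k.factorial * φ ((B ^ k) f)) = fun k : ℕ =>
      (φ.comp (ContinuousLinearMap.apply ℝ XX f)) (((k.factorial : ℝ))⁻¹ • (t • B) ^ k) := by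
    funext k
    simp [smul_pow, div_eq_mul_inv]
    ring
  rw [h3]
  exact h2

theorem exp_bound (B : XX →L[ℝ] XX) {t : ℝ} (ht : 0 ≤ t) (φ : XX →L[ℝ] ℝ) (f : XX) (A c : ℝ)
    (h : ∀ k, |φ ((B ^ k) f)| ≤ A * c ^ k) : |φ (ex (t • B) f)| ≤ A * Real.exp (t * c) := by
  have h1 := hasSum_exp B t φ f
  have h2 : HasSum (fun k : ℕ => A * ((t * c) ^ k / k.factorial)) (A * Real.exp (t * c)) := by
    rw [Real.exp_eq_exp_ℝ]
    exact (expSeries_div_hasSum_exp (t * c)).mul_left A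
  rw [← Real.norm_eq_abs]
  refine h1.norm_le_of_bounded h2 fun k => ?_
  rw [Real.norm_eq_abs, abs_mul, abs_of_nonneg (by positivity), mul_pow]
  have h3 := mul_le_mul_of_nonneg_left (h k) (show 0 ≤ t ^ k / k.factorial by positivity)
  refine h3.trans (le_of_eq ?_)
  ring

theorem exp_fix (B : XX →L[ℝ] XX) (t : ℝ) (φ : XX →L[ℝ] ℝ) (f : XX)
    (h : ∀ k, φ ((B ^ (k + 1)) f) = 0) : φ (ex (t • B) f) = φ f := by
  have h1 := hasSum_exp B t φ f
  have h2 : HasSum (fun k : ℕ => t ^ k / k.factorial * φ ((B ^ k) f)) (φ f) := by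
    have h3 := hasSum_single (f := fun k : ℕ => t ^ k / k.factorial * φ ((B ^ k) f)) 0 (by
      intro k hk
      obtain ⟨j, rfl⟩ := Nat.exists_eq_succ_of_ne_zero hk
      simp only [h j, mul_zero])
    simpa using h3
  exact h1.unique h2

theorem contraction' {P : XX →ₗ[ℝ] XX} (h1 : ∀ f, 0 ≤ f → 0 ≤ P f) (h2 : P 1 = 1) (f : XX) :
    ‖P f‖ ≤ ‖f‖ := by
  rw [ContinuousMap.norm_le _ (norm_nonneg _)]
  intro η
  have h3 := ContinuousMap.le_def.1 (h1 (‖f‖ • (1 : XX) - f) (ContinuousMap.le_def.2 fun ξ => by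
    have := (le_abs_self _).trans (f.norm_coe_le_norm ξ)
    simpa using this)) η
  have h4 := ContinuousMap.le_def.1 (h1 (‖f‖ • (1 : XX) + f) (ContinuousMap.le_def.2 fun ξ => by
    have := (neg_le_abs _).trans (f.norm_coe_le_norm ξ)
    simp only [ContinuousMap.coe_zero, Pi.zero_apply, ContinuousMap.coe_add, Pi.add_apply,
      ContinuousMap.coe_smul, Pi.smul_apply, ContinuousMap.coe_one, Pi.one_apply, smul_eq_mul,
      mul_one]
    linarith)) η
  rw [map_sub, map_smul, h2] at h3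
  rw [map_add, map_smul, h2] at h4
  simp only [ContinuousMap.coe_zero, Pi.zero_apply, ContinuousMap.coe_add, Pi.add_apply,
    ContinuousMap.coe_sub, Pi.sub_apply, ContinuousMap.coe_smul, Pi.smul_apply,
    ContinuousMap.coe_one, Pi.one_apply, smul_eq_mul, mul_one] at h3 h4
  rw [Real.norm_eq_abs, abs_le]
  constructor <;> linarith

theorem contraction {P : XX →L[ℝ] XX} (h1 : ∀ f, 0 ≤ f → 0 ≤ P f) (h2 : P 1 = 1) (f : XX) :
    ‖P f‖ ≤ ‖f‖ := contraction' (P := P.toLinearMap) h1 h2 f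

theorem IsSemiL.semi {q : ℝ} {c : ℤ × ℤ → Cfg → ℝ} {P : ℝ → XX →L[ℝ] XX} (h : IsSemiL q c P) :
    IsSemigroup q c fun t f => P t f :=
  ⟨fun t ht => ⟨(P t).toLinearMap.isLinear, fun f hf => ContinuousMap.le_def.1
    (h.pos t ht f (ContinuousMap.le_def.2 hf)), h.one t ht⟩, h.zero, h.add,
    fun f => ContinuousMap.tendsto_iff_tendstoUniformly.1 (h.cont f), h.gen⟩

theorem IsSemigroup.semiL {q : ℝ} {c : ℤ × ℤ → Cfg → ℝ} {P : ℝ → Obs → Obs}
    (h : IsSemigroup q c P) : ∃ Q : ℝ → XX →L[ℝ] XX, IsSemiL q c Q ∧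
      ∀ t, 0 ≤ t → ∀ f, Q t f = P t f := by
  have h1 : ∀ t : ℝ, ∃ Q : XX →L[ℝ] XX, 0 ≤ t → ∀ f, Q f = P t f := by
    intro t
    by_cases ht : 0 ≤ t
    · obtain ⟨h2, h3, h4⟩ := h.markov t ht
      refine ⟨(IsLinearMap.mk' (P t) h2).mkContinuous 1 fun f => ?_, fun _ _ => rfl⟩
      rw [one_mul]
      exact contraction' (P := IsLinearMap.mk' (P t) h2)
        (fun f hf => ContinuousMap.le_def.2 (h3 f (ContinuousMap.le_def.1 hf))) h4 f
    · exact ⟨0, fun h => absurd h ht⟩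
  choose Q hQ using h1
  refine ⟨Q, ⟨fun f => ?_, fun s t hs ht f => ?_, fun t ht f hf => ?_, fun t ht => ?_,
    fun f => ?_, fun f hf => ?_⟩, hQ⟩
  · rw [hQ 0 le_rfl, h.zero]
  · rw [hQ _ (add_nonneg hs ht), hQ s hs, hQ t ht, h.add s t hs ht]
  · rw [hQ t ht]
    exact ContinuousMap.le_def.2 ((h.markov t ht).2.1 f (ContinuousMap.le_def.1 hf))
  · rw [hQ t ht, (h.markov t ht).2.2]
  · refine (ContinuousMap.tendsto_iff_tendstoUniformly.2 (h.cont f)).congr' ?_
    filter_upwards [self_mem_nhdsWithin] with t ht using (hQ t (Set.mem_Ioi.1 ht).le f).symm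
  · refine (tendstoUniformly_congr ?_).1 (h.gen f hf)
    filter_upwards [self_mem_nhdsWithin] with t ht
    rw [hQ t (Set.mem_Ioi.1 ht).le f]

end Pool.Agent.H851Z.KCM
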