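import Pool.Agent.H851Z.KCM.Semi

set_option autoImplicit false

namespace Pool.Agent.H851Z.KCM

open Filter Topology NormedSpace

theorem ex_add {A : Type} [NormedRing A] [NormedAlgebra ℝ A] [CompleteSpace A] {x y : A}
    (h : Commute x y) : ex (x + y) = ex x * ex y := by
  letI : NormedAlgebra ℚ A := NormedAlgebra.restrictScalars ℚ ℝ A
  exact exp_add_of_commute h

theorem ex_shift {A : Type} [NormedRing A] [NormedAlgebra ℝ A] [CompleteSpace A] (x : A) (c : ℝ) :
    ex (x + c • (1 : A)) = Real.exp c • ex x := by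
  rw [ex_add (Commute.smul_right (Commute.one_right x) c)]
  have h1 : ex (c • (1 : A)) = Real.exp c • (1 : A) := by
    rw [← Algebra.algebraMap_eq_smul_one, ← Algebra.algebraMap_eq_smul_one, Real.exp_eq_exp_ℝ]
    exact (algebraMap_exp_comm c).symm
  rw [h1, mul_smul_comm, mul_one]

theorem ex_deriv {A : Type} [NormedRing A] [NormedAlgebra ℝ A] [CompleteSpace A] (x : A) (t : ℝ) :
    HasDerivAt (fun u : ℝ => ex (u • x)) (x * ex (t • x)) t := hasDerivAt_exp_smul_const' x t

theorem ex_zero {A : Type} [NormedRing A] : ex (0 : A) = 1 := exp_zero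

/-- good families of flip rates -/
structure Rates (a : ℤ × ℤ → XX) : Prop where
  nonneg : ∀ x η, 0 ≤ a x η
  le_one : ∀ x η, a x η ≤ 1
  far : ∀ x u η, u ≠ x → ¬ adj x u → a x (flipAt η u) = a x η
  loc : ∀ x, IsLocal (a x)

/-- finite volume generator -/
noncomputable def LL (a : ℤ × ℤ → XX) (Λ : Finset (ℤ × ℤ)) : XX →L[ℝ] XX := ∑ x ∈ Λ, L1 (a x) x

/-- uniformised generator -/
noncomputable def BB (a : ℤ × ℤ → XX) (Λ : Finset (ℤ × ℤ)) : XX →L[ℝ] XX :=
  LL a Λ + (Λ.card : ℝ) • 1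

/-- finite volume semigroup -/
noncomputable def TT (a : ℤ × ℤ → XX) (Λ : Finset (ℤ × ℤ)) (t : ℝ) : XX →L[ℝ] XX := ex (t • LL a Λ)

variable {a : ℤ × ℤ → XX}

theorem LL_apply (Λ : Finset (ℤ × ℤ)) (f : XX) (η : Cfg) :
    LL a Λ f η = ∑ x ∈ Λ, a x η * (f (flipAt η x) - f η) := by
  simp only [LL, ContinuousLinearMap.sum_apply, ContinuousMap.sum_apply, L1_apply]

theorem BB_apply (Λ : Finset (ℤ × ℤ)) (f : XX) (η : Cfg) :
    BB a Λ f η = ∑ x ∈ Λ, (f η + a x η * (f (flipAt η x) - f η)) := by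
  simp only [BB, ContinuousLinearMap.add_apply, ContinuousMap.add_apply, LL_apply,
    Finset.sum_add_distrib]
  simp [add_comm]

theorem TT_eq (Λ : Finset (ℤ × ℤ)) (t : ℝ) :
    TT a Λ t = Real.exp (-(t * Λ.card)) • ex (t • BB a Λ) := by
  refine Eq.trans ?_ (ex_shift (t • BB a Λ) (-(t * Λ.card)))
  rw [TT, BB]
  congr 1
  ext f η
  simp only [ContinuousLinearMap.smul_apply, ContinuousLinearMap.add_apply,
    ContinuousMap.smul_apply, ContinuousMap.add_apply, smul_eq_mul]
  change _ = t * (LL a Λ f η + Λ.card * f η) + -(t * Λ.card) * f η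
  ring

theorem TT_zero (Λ : Finset (ℤ × ℤ)) (f : XX) : TT a Λ 0 f = f := by
  simp [TT, ex_zero]

theorem TT_add (Λ : Finset (ℤ × ℤ)) (s t : ℝ) (f : XX) :
    TT a Λ (s + t) f = TT a Λ s (TT a Λ t f) := by
  rw [TT, add_smul, ex_add ((Commute.refl _).smul_left s |>.smul_right t)]
  rfl

theorem TT_one (Λ : Finset (ℤ × ℤ)) (t : ℝ) : TT a Λ t 1 = 1 := by
  ext η
  refine exp_fix (LL a Λ) t (ContinuousMap.evalCLM ℝ η) 1 fun k => ?_
  have h1 : LL a Λ 1 = 0 := by
    ext ξ
    simp [LL_apply]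
  rw [pow_succ, ContinuousLinearMap.mul_apply, h1, map_zero, map_zero]

theorem TT_pos (ha : Rates a) (Λ : Finset (ℤ × ℤ)) {t : ℝ} (ht : 0 ≤ t) (f : XX) (hf : 0 ≤ f) :
    0 ≤ TT a Λ t f := by
  have h1 : ∀ k : ℕ, ∀ η, 0 ≤ ((BB a Λ ^ k) f) η := by
    intro k
    induction k with
    | zero => exact ContinuousMap.le_def.1 hf
    | succ k ih =>
      intro η
      rw [pow_succ', ContinuousLinearMap.mul_apply, BB_apply]
      refine Finset.sum_nonneg fun x _ => ?_
      have h2 := ih η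
      have h3 := ih (flipAt η x)
      have h4 := ha.nonneg x η
      have h5 := ha.le_one x η
      nlinarith
  rw [ContinuousMap.le_def]
  intro η
  have h2 := (hasSum_exp (BB a Λ) t (ContinuousMap.evalCLM ℝ η) f).nonneg fun k =>
    mul_nonneg (by positivity) (h1 k η)
  rw [TT_eq]
  exact mul_nonneg (Real.exp_pos _).le h2

theorem TT_norm (ha : Rates a) (Λ : Finset (ℤ × ℤ)) {t : ℝ} (ht : 0 ≤ t) (f : XX) :
    ‖TT a Λ t f‖ ≤ ‖f‖ := contraction (TT_pos ha Λ ht) (TT_one Λ t) f

theorem card_adj (Λ : Finset (ℤ × ℤ)) (u : ℤ × ℤ) : (Λ.filter fun x => adj x u).card ≤ 4 := by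
  have h1 : (Λ.filter fun x => adj x u) ⊆
      {(u.1 + 1, u.2), (u.1 - 1, u.2), (u.1, u.2 + 1), (u.1, u.2 - 1)} := by
    rintro ⟨i, j⟩ h
    simp only [Finset.mem_filter, adj] at h
    simp only [Finset.mem_insert, Finset.mem_singleton, Prod.mk.injEq]
    omega
  exact (Finset.card_le_card h1).trans Finset.card_le_four

theorem BB_lip (ha : Rates a) (Λ : Finset (ℤ × ℤ)) {f : XX} {A : ℝ} (hf : Lip f A) :
    Lip (BB a Λ f) (A * (Λ.card + 8)) := by
  intro u η
  rw [BB_apply, BB_apply, ← Finset.sum_sub_distrib]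
  have hA := hf.nonneg
  have hw := ww_pos u
  have h1 : ∀ x ∈ Λ, |f (flipAt η u) + a x (flipAt η u) * (f (flipAt (flipAt η u) x) -
      f (flipAt η u)) - (f η + a x η * (f (flipAt η x) - f η))| ≤
      A * ww u + if adj x u then 2 * (A * ww u) else 0 := by
    intro x _
    have a1 := ha.nonneg x η
    have a2 := ha.le_one x η
    have a3 := ha.nonneg x (flipAt η u)
    have a4 := ha.le_one x (flipAt η u)
    have b1 := hf u η
    by_cases hx : u = x
    · subst hx
      rw [flipAt_flipAt]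
      have e : f (flipAt η u) + a u (flipAt η u) * (f η - f (flipAt η u)) -
          (f η + a u η * (f (flipAt η u) - f η)) =
          (1 - a u (flipAt η u) - a u η) * (f (flipAt η u) - f η) := by ring
      rw [e, abs_mul]
      have h2 : |1 - a u (flipAt η u) - a u η| ≤ 1 := by rw [abs_le]; constructor <;> linarith
      have h3 := mul_le_mul h2 b1 (abs_nonneg _) zero_le_one
      have h4 : (0 : ℝ) ≤ if adj u u then 2 * (A * ww u) else 0 := by split_ifs <;> positivity
      linarith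
    · have b2 := hf u (flipAt η x)
      have b3 := hf x (flipAt η u)
      rw [flipAt_comm η x u] at b2
      have e : f (flipAt η u) + a x (flipAt η u) * (f (flipAt (flipAt η u) x) - f (flipAt η u)) -
          (f η + a x η * (f (flipAt η x) - f η)) =
          ((1 - a x η) * (f (flipAt η u) - f η) +
            a x η * (f (flipAt (flipAt η u) x) - f (flipAt η x))) +
          (a x (flipAt η u) - a x η) * (f (flipAt (flipAt η u) x) - f (flipAt η u)) := by ring
      rw [e]
      refine (abs_add_le _ _).trans (add_le_add ?_ ?_)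
      · refine (abs_add_le _ _).trans ?_
        rw [abs_mul, abs_mul, abs_of_nonneg a1, abs_of_nonneg (by linarith : 0 ≤ 1 - a x η)]
        nlinarith
      · split_ifs with h
        · rw [abs_mul]
          have h2 : |a x (flipAt η u) - a x η| ≤ 1 := by rw [abs_le]; constructor <;> linarith
          have h3 := mul_le_mul h2 b3 (abs_nonneg _) zero_le_one
          have h4 := mul_le_mul_of_nonneg_left (ww_adj h) hA
          linarith
        · rw [ha.far x u η hx h, sub_self, zero_mul, abs_zero]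
  refine (Finset.abs_sum_le_sum_abs _ _).trans ((Finset.sum_le_sum h1).trans ?_)
  rw [Finset.sum_add_distrib, ← Finset.sum_filter, Finset.sum_const, Finset.sum_const,
    nsmul_eq_mul, nsmul_eq_mul]
  have h2 : ((Λ.filter fun x => adj x u).card : ℝ) ≤ 4 := by exact_mod_cast card_adj Λ u
  have h3 : 0 ≤ A * ww u := by positivity
  nlinarith

theorem TT_lip (ha : Rates a) (Λ : Finset (ℤ × ℤ)) {t : ℝ} (ht : 0 ≤ t) {f : XX} {A : ℝ}
    (hf : Lip f A) : Lip (TT a Λ t f) (A * Real.exp (8 * t)) := by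
  have h1 : ∀ k : ℕ, Lip ((BB a Λ ^ k) f) (A * (Λ.card + 8) ^ k) := by
    intro k
    induction k with
    | zero => simpa using hf
    | succ k ih =>
      rw [pow_succ', ContinuousLinearMap.mul_apply, pow_succ, ← mul_assoc]
      exact BB_lip ha Λ ih
  intro u η
  have h2 := exp_bound (BB a Λ) ht
    (ContinuousMap.evalCLM ℝ (flipAt η u) - ContinuousMap.evalCLM ℝ η) f (A * ww u) (Λ.card + 8)
    (fun k => (h1 k u η).trans (le_of_eq (by ring)))
  rw [TT_eq]
  simp only [ContinuousLinearMap.smul_apply, ContinuousMap.smul_apply, smul_eq_mul]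
  rw [← mul_sub, abs_mul, abs_of_pos (Real.exp_pos _)]
  refine (mul_le_mul_of_nonneg_left h2 (Real.exp_pos _).le).trans (le_of_eq ?_)
  have h3 : Real.exp (8 * t) = Real.exp (-(t * Λ.card)) * Real.exp (t * (Λ.card + 8)) := by
    rw [← Real.exp_add]; congr 1; ring
  rw [h3]
  ring

theorem TT_local (ha : Rates a) (Λ : Finset (ℤ × ℤ)) {t : ℝ} (ht : 0 ≤ t) {f : XX}
    (hf : IsLocal f) : IsLocal (TT a Λ t f) := by
  classical
  obtain ⟨S, hS⟩ := hf
  choose T hT using ha.loc
  refine ⟨S ∪ Λ.biUnion T, fun η ξ h => ?_⟩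
  have h1 : ∀ k : ℕ, DependsOn ((LL a Λ ^ k) f) ((S ∪ Λ.biUnion T : Finset (ℤ × ℤ)) : Set _) := by
    intro k
    induction k with
    | zero => exact hS.mono (by simp)
    | succ k ih =>
      intro η ξ h
      rw [pow_succ', ContinuousLinearMap.mul_apply, LL_apply, LL_apply]
      refine Finset.sum_congr rfl fun x hx => ?_
      have h2 : a x η = a x ξ := hT x fun i hi => h i (by
        simp only [Finset.coe_union, Finset.coe_biUnion, Set.mem_union, Set.mem_iUnion]
        exact Or.inr ⟨x, hx, hi⟩)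
      have h3 : ((LL a Λ ^ k) f) (flipAt η x) = ((LL a Λ ^ k) f) (flipAt ξ x) := ih fun i hi => by
        by_cases h4 : i = x
        · rw [h4, flipAt_self, flipAt_self, ← h4, h i hi]
        · rw [flipAt_ne _ h4, flipAt_ne _ h4, h i hi]
      rw [h2, h3, ih h]
  have h2 := exp_bound (LL a Λ) ht (ContinuousMap.evalCLM ℝ η - ContinuousMap.evalCLM ℝ ξ) f 0 0
    (fun k => by
      have h3 : ((LL a Λ ^ k) f) η - ((LL a Λ ^ k) f) ξ = 0 := by rw [h1 k h, sub_self]
      rw [zero_mul]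
      exact le_of_eq (abs_eq_zero.2 h3))
  rw [zero_mul] at h2
  exact sub_eq_zero.1 (abs_eq_zero.1 (le_antisymm h2 (abs_nonneg _)))

theorem LL_sub (ha : Rates a) {Λ Λ' : Finset (ℤ × ℤ)} (h : Λ ⊆ Λ') {f : XX} {A : ℝ}
    (hf : Lip f A) : ‖LL a Λ' f - LL a Λ f‖ ≤ A * tl Λ := by
  have hA := hf.nonneg
  rw [ContinuousMap.norm_le _ (mul_nonneg hA (tl_nonneg Λ))]
  intro η
  rw [ContinuousMap.sub_apply, LL_apply, LL_apply, ← Finset.sum_sdiff h, add_sub_cancel_right,
    Real.norm_eq_abs]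
  refine (Finset.abs_sum_le_sum_abs _ _).trans ?_
  refine le_trans ?_ (mul_le_mul_of_nonneg_left (sum_sdiff_le_tl h) hA)
  rw [Finset.mul_sum]
  refine Finset.sum_le_sum fun x _ => ?_
  rw [abs_mul, abs_of_nonneg (ha.nonneg x η)]
  have h1 := mul_le_mul (ha.le_one x η) (hf x η) (abs_nonneg _) zero_le_one
  linarith

theorem TT_deriv (Λ : Finset (ℤ × ℤ)) (f : XX) (t : ℝ) :
    HasDerivAt (fun u => TT a Λ u f) (LL a Λ (TT a Λ t f)) t := by
  have h1 := ex_deriv (LL a Λ) t
  have h2 := h1.clm_apply (hasDerivAt_const t f)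
  rw [map_zero, add_zero] at h2
  exact h2

theorem TT_gen (Λ : Finset (ℤ × ℤ)) (f : XX) :
    Tendsto (fun h : ℝ => h⁻¹ • (TT a Λ h f - f)) (𝓝[>] 0) (𝓝 (LL a Λ f)) := by
  have h1 := (TT_deriv (a := a) Λ f 0).hasDerivWithinAt (s := Set.Ioi 0)
  rw [hasDerivWithinAt_iff_tendsto_slope' (by simp), TT_zero] at h1
  refine h1.congr fun h => ?_
  rw [slope_def_module, TT_zero, sub_zero]

theorem TT_cont (Λ : Finset (ℤ × ℤ)) (f : XX) :
    Tendsto (fun t => TT a Λ t f) (𝓝[>] 0) (𝓝 f) := by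
  have h1 := (TT_deriv (a := a) Λ f 0).continuousAt.tendsto
  rw [TT_zero] at h1
  exact h1.mono_left nhdsWithin_le_nhds

section compare

variable {P : ℝ → XX →L[ℝ] XX} (hz : ∀ f, P 0 f = f)
  (hadd : ∀ s t, 0 ≤ s → 0 ≤ t → ∀ f, P (s + t) f = P s (P t f))
  (hcon : ∀ t, 0 ≤ t → ∀ f, ‖P t f‖ ≤ ‖f‖)
  (hcont : ∀ f, Tendsto (fun t => P t f) (𝓝[>] 0) (𝓝 f))

include hz hadd hcon hcont

theorem strong_cont (g : XX) : ContinuousOn (fun r => P r g) (Set.Ici 0) := by
  have h1 : ∀ r s, 0 ≤ r → r ≤ s → ‖P s g - P r g‖ ≤ ‖P (s - r) g - g‖ := by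
    intro r s hr hs
    have h2 : P s g = P r (P (s - r) g) := by
      rw [← hadd r (s - r) hr (by linarith)]; congr 2; ring
    rw [h2, ← map_sub]
    exact hcon r hr _
  rw [Metric.continuousOn_iff]
  intro r hr ε hε
  obtain ⟨δ, hδ, h2⟩ := Metric.tendsto_nhdsWithin_nhds.1 (hcont g) ε hε
  have h3 : ∀ h, 0 ≤ h → h < δ → ‖P h g - g‖ < ε := by
    intro h h4 h5
    rcases h4.lt_or_eq with h6 | h6
    · rw [← dist_eq_norm]
      exact h2 h6 (by rw [Real.dist_eq, sub_zero, abs_of_pos h6]; exact h5)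
    · rw [← h6, hz, sub_self, norm_zero]; exact hε
  refine ⟨δ, hδ, fun s hs h4 => ?_⟩
  rw [Real.dist_eq, abs_lt] at h4
  rcases le_total r s with h5 | h5
  · rw [dist_eq_norm]
    exact (h1 r s hr h5).trans_lt (h3 _ (by linarith) (by linarith))
  · rw [dist_comm, dist_eq_norm]
    exact (h1 s r hs h5).trans_lt (h3 _ (by linarith) (by linarith))

theorem compare (ha : Rates a) (Λ : Finset (ℤ × ℤ))
    (hgen : ∀ g : XX, IsLocal g → ∃ Λ', Λ ⊆ Λ' ∧
      Tendsto (fun h : ℝ => h⁻¹ • (P h g - g)) (𝓝[>] 0) (𝓝 (LL a Λ' g)))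
    {f : XX} (hf : IsLocal f) {A : ℝ} (hA : Lip f A) {t : ℝ} (ht : 0 ≤ t) :
    ‖P t f - TT a Λ t f‖ ≤ A * Real.exp (8 * t) * tl Λ * t := by
  let v : ℝ → XX := fun r => TT a Λ (t - r) f
  have hv : ∀ r, HasDerivAt v (-(LL a Λ (v r))) r := by
    intro r
    have h1 := (TT_deriv (a := a) Λ f (t - r)).scomp r ((hasDerivAt_id r).const_sub t)
    rw [neg_one_smul] at h1
    exact h1
  have hvc : Continuous v := continuous_iff_continuousAt.2 fun r => (hv r).continuousAt
  have hc : ContinuousOn (fun r => P r (v r)) (Set.Icc 0 t) := by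
    intro r hr
    have h1 : Tendsto (fun s => P s (v r)) (𝓝[Set.Icc 0 t] r) (𝓝 (P r (v r))) :=
      (strong_cont hz hadd hcon hcont (v r) r hr.1).mono Set.Icc_subset_Ici_self
    have h2 : Tendsto (fun s => P s (v s - v r)) (𝓝[Set.Icc 0 t] r) (𝓝 0) := by
      refine squeeze_zero_norm' (a := fun s => ‖v s - v r‖) ?_ ?_
      · filter_upwards [self_mem_nhdsWithin] with s hs using hcon s hs.1 _
      · have h3 : Tendsto (fun s => ‖v s - v r‖) (𝓝 r) (𝓝 ‖v r - v r‖) :=
          ((hvc.sub continuous_const).norm).tendsto r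
        rw [sub_self, norm_zero] at h3
        exact h3.mono_left nhdsWithin_le_nhds
    have h3 := h1.add h2
    rw [add_zero] at h3
    refine h3.congr fun s => ?_
    rw [map_sub]
    abel
  have hd : ∀ r ∈ Set.Ico 0 t, ∃ D : XX, HasDerivWithinAt (fun r => P r (v r)) D (Set.Ici r) r ∧
      ‖D‖ ≤ A * Real.exp (8 * t) * tl Λ := by
    intro r hr
    have htr : 0 ≤ t - r := by linarith [hr.2]
    obtain ⟨Λ', h1, h2⟩ := hgen (v r) (TT_local ha Λ htr hf)
    refine ⟨P r (LL a Λ' (v r) - LL a Λ (v r)), ?_, ?_⟩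
    · refine HasDerivWithinAt.Ici_of_Ioi ?_
      rw [hasDerivWithinAt_iff_tendsto_slope' (by simp)]
      have hsub : Tendsto (fun y => y - r) (𝓝[>] r) (𝓝[>] 0) := by
        refine tendsto_nhdsWithin_iff.2 ⟨?_, ?_⟩
        · have h3 : Tendsto (fun y => y - r) (𝓝 r) (𝓝 (r - r)) :=
            (continuous_id.sub continuous_const).tendsto r
          rw [sub_self] at h3
          exact h3.mono_left nhdsWithin_le_nhds
        · filter_upwards [self_mem_nhdsWithin] with y hy using sub_pos.2 (Set.mem_Ioi.1 hy)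
      have h3 := h2.comp hsub
      have h4 : Tendsto (slope v r) (𝓝[>] r) (𝓝 (-(LL a Λ (v r)))) :=
        (hasDerivWithinAt_iff_tendsto_slope' (by simp)).1
          ((hv r).hasDerivWithinAt (s := Set.Ioi r))
      have h5 := (hcont (-(LL a Λ (v r)))).comp hsub
      have h6 : Tendsto (fun y => P (y - r) (slope v r y - -(LL a Λ (v r)))) (𝓝[>] r) (𝓝 0) := by
        refine squeeze_zero_norm' (a := fun y => ‖slope v r y - -(LL a Λ (v r))‖) ?_ ?_
        · filter_upwards [self_mem_nhdsWithin] with y hy using hcon _ (sub_pos.2 (Set.mem_Ioi.1 hy)).le _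
        · exact tendsto_iff_norm_sub_tendsto_zero.1 h4
      have h7 := (P r).continuous.tendsto _ |>.comp ((h3.add h5).add h6)
      rw [add_zero, ← sub_eq_add_neg] at h7
      refine h7.congr' ?_
      filter_upwards [self_mem_nhdsWithin] with y hy
      have h8 : P y (v y) = P r (P (y - r) (v y)) := by
        rw [← hadd r (y - r) hr.1 (sub_pos.2 (Set.mem_Ioi.1 hy)).le]; congr 2; ring
      simp only [Function.comp, slope_def_module]
      rw [h8, ← map_sub (P r), ← map_smul (P r)]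
      congr 1
      simp only [map_sub, map_smul, map_neg, smul_sub]
      abel
    · refine (hcon r hr.1 _).trans ((LL_sub ha h1 (TT_lip ha Λ htr hA)).trans ?_)
      refine mul_le_mul_of_nonneg_right (mul_le_mul_of_nonneg_left ?_ hA.nonneg) (tl_nonneg Λ)
      exact Real.exp_le_exp.2 (by linarith [hr.1])
  choose! D hD using hd
  have h1 := norm_image_sub_le_of_norm_deriv_right_le_segment hc (fun r hr => (hD r hr).1)
    (fun r hr => (hD r hr).2) t ⟨ht, le_rfl⟩
  simp only [v, sub_self, TT_zero, hz, sub_zero] at h1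
  exact h1

end compare

end Pool.Agent.H851Z.KCM
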