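import Pool.Agent.H851Z.KCM.Semi2

set_option autoImplicit false

namespace Pool.Agent.H851Z.KCM

open Filter Topology MeasureTheory

variable {a : ℤ × ℤ → XX}

theorem TT_compare (ha : Rates a) {Λ Λ' : Finset (ℤ × ℤ)} (h : Λ ⊆ Λ') {f : XX} (hf : IsLocal f)
    {A : ℝ} (hA : Lip f A) {t : ℝ} (ht : 0 ≤ t) :
    ‖TT a Λ' t f - TT a Λ t f‖ ≤ A * Real.exp (8 * t) * tl Λ * t :=
  compare (P := TT a Λ') (TT_zero Λ') (fun s t _ _ => TT_add Λ' s t)
    (fun _ ht => TT_norm ha Λ' ht) (TT_cont Λ') ha Λ (fun g _ => ⟨Λ', h, TT_gen Λ' g⟩) hf hA ht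

theorem tl_small (c d : ℝ) {ε : ℝ} (hε : 0 < ε) : ∀ᶠ Λ in atTop, c * tl Λ * d < ε := by
  have h1 := (tl_tendsto.const_mul c).mul_const d
  rw [mul_zero, zero_mul] at h1
  exact h1.eventually (gt_mem_nhds hε)

theorem TT_cauchy (ha : Rates a) {t : ℝ} (ht : 0 ≤ t) (f : XX) :
    CauchySeq fun Λ : Finset (ℤ × ℤ) => TT a Λ t f := by
  rw [Metric.cauchySeq_iff']
  intro ε hε
  obtain ⟨g, hg, hfg⟩ := dense_local.exists_dist_lt f (show 0 < ε / 3 by positivity)
  obtain ⟨A, hA⟩ := IsLocal.lip hg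
  obtain ⟨N, hN⟩ := (tl_small (A * Real.exp (8 * t)) t (show 0 < ε / 3 by positivity)).exists
  refine ⟨N, fun n hn => ?_⟩
  rw [dist_eq_norm] at hfg ⊢
  have h1 := TT_compare ha hn hg hA ht
  have h2 := TT_norm ha n ht (f - g)
  have h3 := TT_norm ha N ht (f - g)
  have h4 : TT a n t f - TT a N t f =
      TT a n t (f - g) + (TT a n t g - TT a N t g) - TT a N t (f - g) := by
    rw [map_sub, map_sub]; abel
  rw [h4]
  have h5 := norm_sub_le (TT a n t (f - g) + (TT a n t g - TT a N t g)) (TT a N t (f - g))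
  have h6 := norm_add_le (TT a n t (f - g)) (TT a n t g - TT a N t g)
  linarith

theorem exists_lim (ha : Rates a) : ∃ P : ℝ → XX →L[ℝ] XX, ∀ t, 0 ≤ t → ∀ f,
    Tendsto (fun Λ : Finset (ℤ × ℤ) => TT a Λ t f) atTop (𝓝 (P t f)) := by
  have h : ∀ t : ℝ, ∃ Q : XX →L[ℝ] XX, 0 ≤ t → ∀ f,
      Tendsto (fun Λ : Finset (ℤ × ℤ) => TT a Λ t f) atTop (𝓝 (Q f)) := by
    intro t
    by_cases ht : 0 ≤ t
    · choose l hl using fun f => cauchySeq_tendsto_of_complete (TT_cauchy ha ht f)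
      let M : XX →ₗ[ℝ] XX :=
        { toFun := l
          map_add' := fun f g => tendsto_nhds_unique (hl (f + g))
            (((hl f).add (hl g)).congr fun Λ => (map_add _ _ _).symm)
          map_smul' := fun c f => tendsto_nhds_unique (hl (c • f))
            (((hl f).const_smul c).congr fun Λ => (map_smul _ _ _).symm) }
      refine ⟨M.mkContinuous 1 fun f => ?_, fun _ f => hl f⟩
      rw [one_mul]
      exact le_of_tendsto' (hl f).norm fun Λ => TT_norm ha Λ ht f
    · exact ⟨0, fun h => absurd h ht⟩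
  choose P hP using h
  exact ⟨P, hP⟩

theorem LL_eq {f : XX} {S Λ : Finset (ℤ × ℤ)} (hS : DependsOn f (S : Set (ℤ × ℤ))) (h : S ⊆ Λ) :
    LL a Λ f = LL a S f := by
  ext η
  rw [LL_apply, LL_apply]
  refine (Finset.sum_subset h fun x _ hx => ?_).symm
  rw [flip_eq_of_dep hS (by simpa using hx), sub_self, mul_zero]

theorem gen_iff {q : ℝ} {c : ℤ × ℤ → Cfg → ℝ}
    (hc : ∀ x η, a x η = c x η * if η x then q else 1 - q) (P : ℝ → XX →L[ℝ] XX) {f : XX}
    {S : Finset (ℤ × ℤ)} (hS : DependsOn f (S : Set (ℤ × ℤ))) :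
    TendstoUniformly (fun (t : ℝ) η => (P t f η - f η) / t) (gen q c f) (𝓝[>] 0) ↔
      Tendsto (fun h : ℝ => h⁻¹ • (P h f - f)) (𝓝[>] 0) (𝓝 (LL a S f)) := by
  rw [ContinuousMap.tendsto_iff_tendstoUniformly]
  have h1 : gen q c f = LL a S f := by
    funext η
    rw [LL_apply, gen, finsum_eq_sum_of_support_subset (s := S)]
    · exact Finset.sum_congr rfl fun x _ => by rw [hc]
    · intro x hx
      by_contra h
      exact hx (by simp only []; rw [flip_eq_of_dep hS h, sub_self, mul_zero])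
  have h2 : (fun (t : ℝ) η => (P t f η - f η) / t) = fun (t : ℝ) η => (t⁻¹ • (P t f - f)) η := by
    funext t η
    simp [div_eq_inv_mul]
  rw [h1, h2]

theorem exists_semiL (ha : Rates a) {q : ℝ} {c : ℤ × ℤ → Cfg → ℝ}
    (hc : ∀ x η, a x η = c x η * if η x then q else 1 - q) : ∃ P, IsSemiL q c P := by
  obtain ⟨P, hP⟩ := exists_lim ha
  have hn : ∀ t, 0 ≤ t → ∀ f, ‖P t f‖ ≤ ‖f‖ := fun t ht f =>
    le_of_tendsto' (hP t ht f).norm fun Λ => TT_norm ha Λ ht f
  have hb : ∀ Λ (f : XX) A t, IsLocal f → Lip f A → 0 ≤ t →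
      ‖P t f - TT a Λ t f‖ ≤ A * Real.exp (8 * t) * tl Λ * t := by
    intro Λ f A t hf hA ht
    refine le_of_tendsto ((hP t ht f).sub_const (TT a Λ t f)).norm ?_
    filter_upwards [eventually_ge_atTop Λ] with Λ' h using TT_compare ha h hf hA ht
  refine ⟨P, fun f => ?_, fun s t hs ht f => ?_, fun t ht f hf => ?_, fun t ht => ?_,
    fun f => ?_, fun f hf => ?_⟩
  · exact tendsto_nhds_unique (hP 0 le_rfl f)
      (tendsto_const_nhds.congr fun Λ => (TT_zero Λ f).symm)
  · refine tendsto_nhds_unique (hP _ (add_nonneg hs ht) f) ?_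
    have h1 : Tendsto (fun Λ : Finset (ℤ × ℤ) => TT a Λ s (TT a Λ t f - P t f)) atTop (𝓝 0) :=
      squeeze_zero_norm (fun Λ => TT_norm ha Λ hs _)
        (tendsto_iff_norm_sub_tendsto_zero.1 (hP t ht f))
    have h2 := (hP s hs (P t f)).add h1
    rw [add_zero] at h2
    refine h2.congr fun Λ => ?_
    rw [TT_add, map_sub]
    abel
  · rw [ContinuousMap.le_def]
    intro η
    exact ge_of_tendsto' (((continuous_eval_const η).tendsto _).comp (hP t ht f))
      fun Λ => ContinuousMap.le_def.1 (TT_pos ha Λ ht f hf) η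
  · exact tendsto_nhds_unique (hP t ht 1) (tendsto_const_nhds.congr fun Λ => (TT_one Λ t).symm)
  · rw [Metric.tendsto_nhds]
    intro ε hε
    obtain ⟨g, hg, hfg⟩ := dense_local.exists_dist_lt f (show 0 < ε / 4 by positivity)
    obtain ⟨A, hA⟩ := IsLocal.lip hg
    have h1 : Tendsto (fun t : ℝ => A * Real.exp (8 * t) * tl ∅ * t) (𝓝[>] 0) (𝓝 0) := by
      have h2 : Continuous fun t : ℝ => A * Real.exp (8 * t) * tl ∅ * t := by fun_prop
      have h3 := h2.tendsto 0
      rw [mul_zero] at h3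
      exact h3.mono_left nhdsWithin_le_nhds
    filter_upwards [h1.eventually (gt_mem_nhds (show 0 < ε / 4 by positivity)),
      Metric.tendsto_nhds.1 (TT_cont (a := a) ∅ g) (ε / 4) (by positivity),
      self_mem_nhdsWithin] with t h2 h3 ht
    have ht' : 0 ≤ t := (Set.mem_Ioi.1 ht).le
    rw [dist_eq_norm] at hfg h3 ⊢
    have h4 := hb ∅ g A t hg hA ht'
    have h5 := hn t ht' (f - g)
    have h6 : P t f - f = P t (f - g) + (P t g - TT a ∅ t g) + (TT a ∅ t g - g) - (f - g) := by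
      rw [map_sub]; abel
    rw [h6]
    have h7 := norm_sub_le (P t (f - g) + (P t g - TT a ∅ t g) + (TT a ∅ t g - g)) (f - g)
    have h8 := norm_add₃_le (a := P t (f - g)) (b := P t g - TT a ∅ t g) (c := TT a ∅ t g - g)
    linarith
  · obtain ⟨A, hA⟩ := IsLocal.lip hf
    obtain ⟨S, hS⟩ := id hf
    rw [gen_iff hc P hS, Metric.tendsto_nhds]
    intro ε hε
    obtain ⟨Λ, h1, h2⟩ := ((tl_small (A * Real.exp 8) 1 (show 0 < ε / 2 by positivity)).and
      (eventually_ge_atTop S)).exists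
    filter_upwards [Metric.tendsto_nhds.1 (TT_gen (a := a) Λ f) (ε / 2) (by positivity),
      Ioo_mem_nhdsGT (show (0 : ℝ) < 1 by norm_num)] with t h3 ht
    rw [LL_eq hS h2] at h3
    rw [dist_eq_norm] at h3 ⊢
    have h4 := hb Λ f A t hf hA ht.1.le
    have h5 : t⁻¹ • (P t f - f) - LL a S f =
        t⁻¹ • (P t f - TT a Λ t f) + (t⁻¹ • (TT a Λ t f - f) - LL a S f) := by
      simp only [smul_sub]; abel
    have h6 : ‖t⁻¹ • (P t f - TT a Λ t f)‖ ≤ A * Real.exp 8 * tl Λ * 1 := by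
      rw [norm_smul, Real.norm_eq_abs, abs_of_pos (inv_pos.2 ht.1), inv_mul_le_iff₀ ht.1]
      refine h4.trans ?_
      have h7 : Real.exp (8 * t) ≤ Real.exp 8 := Real.exp_le_exp.2 (by linarith [ht.2])
      have h8 := mul_le_mul_of_nonneg_right (mul_le_mul_of_nonneg_right
        (mul_le_mul_of_nonneg_left h7 hA.nonneg) (tl_nonneg Λ)) ht.1.le
      linarith
    rw [h5]
    have h7 := norm_add_le (t⁻¹ • (P t f - TT a Λ t f)) (t⁻¹ • (TT a Λ t f - f) - LL a S f)
    linarith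

theorem integ (μ : Measure Cfg) [IsFiniteMeasure μ] (f : XX) : Integrable f μ :=
  (BoundedContinuousFunction.mkOfCompact f).integrable μ

/-- integration as a functional -/
noncomputable def intC (μ : Measure Cfg) [IsProbabilityMeasure μ] : XX →L[ℝ] ℝ :=
  LinearMap.mkContinuous
    { toFun := fun f => ∫ η, f η ∂μ
      map_add' := fun f g => integral_add (integ μ f) (integ μ g)
      map_smul' := fun c f => integral_smul c f } 1 fun f => by
    have h1 := norm_integral_le_of_norm_le_const (μ := μ) (f := f) (C := ‖f‖)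
      (Eventually.of_forall fun η => f.norm_coe_le_norm η)
    simpa using h1

theorem intC_apply (μ : Measure Cfg) [IsProbabilityMeasure μ] (f : XX) :
    intC μ f = ∫ η, f η ∂μ := rfl

theorem intC_le (μ : Measure Cfg) [IsProbabilityMeasure μ] (f : XX) : ‖intC μ f‖ ≤ ‖f‖ := by
  have h1 := norm_integral_le_of_norm_le_const (μ := μ) (f := f) (C := ‖f‖)
    (Eventually.of_forall fun η => f.norm_coe_le_norm η)
  rw [intC_apply]
  simpa using h1

theorem stationaryL (ha : Rates a) {q : ℝ} {c : ℤ × ℤ → Cfg → ℝ}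
    (hc : ∀ x η, a x η = c x η * if η x then q else 1 - q) (μ : Measure Cfg)
    [IsProbabilityMeasure μ] (hμ : ∀ x F, intC μ (L1 (a x) x F) = 0) {P : ℝ → XX →L[ℝ] XX}
    (hP : IsSemiL q c P) : IsStationary (fun t f => P t f) μ := by
  intro t ht
  have h1 : ∀ Λ f, intC μ (TT a Λ t f) = intC μ f := by
    intro Λ f
    refine exp_fix (LL a Λ) t (intC μ) f fun k => ?_
    rw [pow_succ']
    change intC μ (LL a Λ ((LL a Λ ^ k) f)) = 0
    generalize (LL a Λ ^ k) f = g
    simp only [LL, ContinuousLinearMap.sum_apply, map_sum, hμ, Finset.sum_const_zero]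
  have h2 : (fun f => intC μ (P t f)) = fun f => intC μ f := by
    refine Continuous.ext_on dense_local (by fun_prop) (by fun_prop) fun f hf => ?_
    obtain ⟨A, hA⟩ := IsLocal.lip hf
    have h3 : ∀ Λ, ‖intC μ (P t f) - intC μ f‖ ≤ A * Real.exp (8 * t) * tl Λ * t := by
      intro Λ
      rw [← h1 Λ f, ← map_sub]
      refine (intC_le μ _).trans (compare hP.zero hP.add
        (fun t ht => contraction (hP.pos t ht) (hP.one t ht)) hP.cont ha Λ (fun g hg => ?_) hf hA ht)
      obtain ⟨S, hS⟩ := id hg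
      refine ⟨Λ ∪ S, Finset.subset_union_left, ?_⟩
      rw [LL_eq hS Finset.subset_union_right, ← gen_iff hc P hS]
      exact hP.gen g hg
    have h4 := (tl_tendsto.const_mul (A * Real.exp (8 * t))).mul_const t
    rw [mul_zero, zero_mul] at h4
    exact sub_eq_zero.1 (norm_le_zero_iff.1 (ge_of_tendsto' h4 h3))
  exact fun f => congrFun h2 f

theorem exists_semigroup (ha : Rates a) {q : ℝ} {c : ℤ × ℤ → Cfg → ℝ}
    (hc : ∀ x η, a x η = c x η * if η x then q else 1 - q) : ∃ P, IsSemigroup q c P := by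
  obtain ⟨P, hP⟩ := exists_semiL ha hc
  exact ⟨_, hP.semi⟩

theorem stationary (ha : Rates a) {q : ℝ} {c : ℤ × ℤ → Cfg → ℝ}
    (hc : ∀ x η, a x η = c x η * if η x then q else 1 - q) (μ : Measure Cfg)
    [IsProbabilityMeasure μ] (hμ : ∀ x F, intC μ (L1 (a x) x F) = 0) {P : ℝ → Obs → Obs}
    (hP : IsSemigroup q c P) : IsStationary P μ := by
  obtain ⟨Q, h1, h2⟩ := hP.semiL
  intro t ht f
  rw [← h2 t ht f]
  exact stationaryL ha hc μ hμ h1 t ht f

end Pool.Agent.H851Z.KCM
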